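import Pool.Agent.H70.TIE.Stmts

/-!
# Project TIE, module KT: upper bound sieve for `K`-tuples
-/

set_option autoImplicit false

namespace TIE
open Finset MTA

theorem kt_DJ_pos (J : Finset ℕ) : 1 ≤ DJ J := by
  unfold DJ
  refine Nat.succ_le_of_lt (Finset.prod_pos fun i _ => Finset.prod_pos fun j hj => ?_)
  have := (Finset.mem_filter.1 hj).2
  omega

theorem kt_dvd_DJ (J : Finset ℕ) {i j : ℕ} (hi : i ∈ J) (hj : j ∈ J) (hij : i < j) :
    j - i ∣ DJ J := by
  unfold DJ
  refine Dvd.dvd.trans ?_ (Finset.dvd_prod_of_mem _ hi)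
  exact Finset.dvd_prod_of_mem (fun j => j - i) (Finset.mem_filter.2 ⟨hj, hij⟩)

/-- the number of classes -/
theorem kt_classes (K N Q : ℕ) (J : Finset ℕ) (hJ : J.card = K) (p : ℕ) (hp : p.Prime) (hpQ : p ≤ Q)
    (hpD : ¬ p ∣ DJ J) :
    (((Icc 1 N).filter (fun y => Q < y ∧ ∀ j ∈ J, (y + j).Prime)).image (fun n => n % p)).card + K ≤ p := by
  classical
  have hfact : Fact p.Prime := ⟨hp⟩
  have hnz : NeZero p := ⟨hp.ne_zero⟩
  -- the classes `-j`
  set B : Finset (ZMod p) := J.image (fun j : ℕ => -(j : ZMod p)) with hB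
  have hBc : B.card = K := by
    rw [hB, Finset.card_image_of_injOn, hJ]
    intro i hi j hj hij
    have hij' : (i : ZMod p) = (j : ZMod p) := neg_injective hij
    rcases lt_trichotomy i j with h | h | h
    · exfalso
      apply hpD
      refine Dvd.dvd.trans ?_ (kt_dvd_DJ J hi hj h)
      rw [ZMod.natCast_eq_natCast_iff] at hij'
      exact (Nat.modEq_iff_dvd' h.le).1 hij'
    · exact h
    · exfalso
      apply hpD
      refine Dvd.dvd.trans ?_ (kt_dvd_DJ J hj hi h)
      rw [ZMod.natCast_eq_natCast_iff] at hij'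
      exact (Nat.modEq_iff_dvd' h.le).1 hij'.symm
  set A : Finset (ZMod p) := ((Icc 1 N).filter (fun y => Q < y ∧ ∀ j ∈ J, (y + j).Prime)).image
    (fun n : ℕ => (n : ZMod p)) with hA
  have hdis : Disjoint A B := by
    rw [Finset.disjoint_left]
    intro a ha hb
    obtain ⟨y, hy, rfl⟩ := Finset.mem_image.1 ha
    obtain ⟨j, hj, hjy⟩ := Finset.mem_image.1 hb
    obtain ⟨-, hyQ, hyp⟩ := Finset.mem_filter.1 hy
    have h0 : ((y + j : ℕ) : ZMod p) = 0 := by
      push_cast
      rw [← hjy]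
      ring
    rw [ZMod.natCast_eq_zero_iff] at h0
    have h1 := (Nat.prime_dvd_prime_iff_eq hp (hyp j hj)).1 h0
    omega
  have hcard : A.card + B.card ≤ p := by
    rw [← Finset.card_union_of_disjoint hdis]
    calc (A ∪ B).card ≤ (Finset.univ : Finset (ZMod p)).card := Finset.card_le_univ _
      _ = p := by rw [Finset.card_univ, ZMod.card]
  have hAc : (((Icc 1 N).filter (fun y => Q < y ∧ ∀ j ∈ J, (y + j).Prime)).image (fun n => n % p)).card
      ≤ A.card := by
    have : ((Icc 1 N).filter (fun y => Q < y ∧ ∀ j ∈ J, (y + j).Prime)).image (fun n => n % p) =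
        A.image (fun a => a.val) := by
      rw [hA, Finset.image_image]
      refine Finset.image_congr fun n _ => ?_
      simp [ZMod.val_natCast]
    rw [this]
    exact Finset.card_image_le
  rw [hBc] at hcard
  omega

/-- the logarithm power is small against the square root -/
theorem kt_log (K : ℕ) : ∃ N0 : ℕ, ∀ N : ℕ, N0 ≤ N → (Real.log N) ^ K ≤ (N : ℝ) ^ (1 / 2 : ℝ) := by
  have h := (isLittleO_log_rpow_rpow_atTop (s := (1 / 2 : ℝ)) (K : ℝ) (by norm_num)).bound (c := 1) one_pos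
  have h2 := (tendsto_natCast_atTop_atTop (R := ℝ)).eventually h
  obtain ⟨N0, hN0⟩ := Filter.eventually_atTop.1 h2
  refine ⟨max N0 1, fun N hN => ?_⟩
  have h3 := hN0 N (le_trans (le_max_left _ _) hN)
  have hN1 : (1 : ℝ) ≤ N := by exact_mod_cast (le_trans (le_max_right _ _) hN)
  have hl : 0 ≤ Real.log N := Real.log_nonneg hN1
  rw [Real.norm_of_nonneg (Real.rpow_nonneg hl _), Real.norm_of_nonneg (by positivity), one_mul,
    Real.rpow_natCast] at h3
  exact h3

theorem KT (hALS : S_ALS) (hLJ : S_LJ) : S_KT := by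
  classical
  intro K hK
  obtain ⟨C, hC, hA⟩ := hALS
  obtain ⟨c, hc, Q0, hL⟩ := hLJ K hK
  obtain ⟨N1, hN1⟩ := kt_log K
  refine ⟨2 * C * 4 ^ K / c + 1, by positivity, max (max ((Q0 + 1) ^ 2) 16) N1, ?_⟩
  intro N hN J hJ
  have hN16 : 16 ≤ N := le_trans (le_max_right _ _) (le_trans (le_max_left _ _) hN)
  have hNQ : (Q0 + 1) ^ 2 ≤ N := le_trans (le_max_left _ _) (le_trans (le_max_left _ _) hN)
  have hNN1 : N1 ≤ N := le_trans (le_max_right _ _) hN
  set D := DJ J with hD
  have hD1 : 1 ≤ D := kt_DJ_pos J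
  set Q := Nat.sqrt N with hQ
  have hQQ0 : Q0 ≤ Q := by
    have : Q0 + 1 ≤ Nat.sqrt N := Nat.le_sqrt'.2 hNQ
    omega
  have hQ4 : 4 ≤ Q := Nat.le_sqrt'.2 (by omega)
  have hQsq : Q ^ 2 ≤ N := Nat.sqrt_le' N
  have hQsq2 : N < (Q + 1) ^ 2 := Nat.lt_succ_sqrt' N
  set S := (Icc 1 N).filter (fun y => Q < y ∧ ∀ j ∈ J, (y + j).Prime) with hS
  have hKK : K ≤ K ^ 2 := Nat.le_self_pow two_ne_zero K
  -- the weights
  set w : ℕ → ℕ := fun p => if p ∣ (K ^ 2).factorial * D then 0 else K with hw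
  have hgt : ∀ p : ℕ, p.Prime → ¬ p ∣ (K ^ 2).factorial * D → K < p ∧ ¬ p ∣ D := by
    intro p hp hpd
    refine ⟨?_, fun h => hpd (Dvd.dvd.mul_left h _)⟩
    by_contra hle
    push Not at hle
    exact hpd (Dvd.dvd.mul_right (Nat.dvd_factorial hp.pos (hle.trans hKK)) D)
  have hsieve := hA N Q (by omega) (by omega) S (Finset.filter_subset _ _) w (by
    intro p hp hpQ
    simp only [hw]
    split_ifs with hd
    · refine ⟨hp.pos, ?_⟩
      rw [add_zero]
      calc (S.image fun n => n % p).card ≤ (range p).card :=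
            Finset.card_le_card fun a ha => by
              obtain ⟨n, -, rfl⟩ := Finset.mem_image.1 ha
              exact Finset.mem_range.2 (Nat.mod_lt _ hp.pos)
        _ = p := Finset.card_range p
    · obtain ⟨h1, h2⟩ := hgt p hp hd
      exact ⟨h1, kt_classes K N Q J hJ p hp hpQ h2⟩)
  -- lower bound for the sum
  have hlow : c * ((D.totient : ℝ) / D * Real.log Q) ^ K ≤
      ∑ r ∈ (Icc 1 Q).filter Squarefree, ∏ p ∈ r.primeFactors, ((w p : ℝ) / ((p : ℝ) - w p)) := by
    refine (hL Q D hQQ0 hD1).trans ?_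
    have hwnn : ∀ p : ℕ, p.Prime → 0 ≤ ((w p : ℝ) / ((p : ℝ) - w p)) := by
      intro p hp
      simp only [hw]
      split_ifs with hd
      · simp
      · have h1 : (K : ℝ) < p := by exact_mod_cast (hgt p hp hd).1
        have h2 : 0 < (p : ℝ) - K := by linarith
        positivity
    calc ∑ r ∈ (Icc 1 Q).filter (fun r => Squarefree r ∧ r.Coprime ((K ^ 2).factorial * D)),
          (K : ℝ) ^ r.primeFactors.card / r
        ≤ ∑ r ∈ (Icc 1 Q).filter (fun r => Squarefree r ∧ r.Coprime ((K ^ 2).factorial * D)),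
          ∏ p ∈ r.primeFactors, ((w p : ℝ) / ((p : ℝ) - w p)) := by
          refine Finset.sum_le_sum fun r hr => ?_
          obtain ⟨hr1, hr2, hr3⟩ := Finset.mem_filter.1 hr
          have hrp : ((r : ℕ) : ℝ) = ∏ p ∈ r.primeFactors, (p : ℝ) := by
            conv_lhs => rw [← Nat.prod_primeFactors_of_squarefree hr2]
            push_cast
            rfl
          rw [hrp, ← Finset.prod_const, ← Finset.prod_div_distrib]
          refine Finset.prod_le_prod (fun p _ => by positivity) fun p hp => ?_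
          have hpp := Nat.prime_of_mem_primeFactors hp
          have hpr := Nat.dvd_of_mem_primeFactors hp
          have hd : ¬ p ∣ (K ^ 2).factorial * D := by
            intro hd
            have h2 := Nat.dvd_gcd hpr hd
            rw [Nat.coprime_iff_gcd_eq_one.1 hr3] at h2
            exact hpp.one_lt.ne' (Nat.dvd_one.1 h2)
          have hwp : w p = K := by simp only [hw]; rw [if_neg hd]
          rw [hwp]
          have h1 : (K : ℝ) < p := by exact_mod_cast (hgt p hpp hd).1
          refine div_le_div_of_nonneg_left (by positivity) (by linarith) ?_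
          have : (0 : ℝ) ≤ K := by positivity
          linarith
      _ ≤ _ := by
          refine Finset.sum_le_sum_of_subset_of_nonneg ?_ fun r _ _ =>
            Finset.prod_nonneg fun p hp => hwnn p (Nat.prime_of_mem_primeFactors hp)
          intro r hr
          obtain ⟨hr1, hr2, -⟩ := Finset.mem_filter.1 hr
          exact Finset.mem_filter.2 ⟨hr1, hr2⟩
  -- logarithms
  have hN0 : (0 : ℝ) < N := by exact_mod_cast (by omega : 0 < N)
  have hQ0' : (0 : ℝ) < Q := by exact_mod_cast (by omega : 0 < Q)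
  have hlogN : 0 < Real.log N := Real.log_pos (by exact_mod_cast (by omega : 1 < N))
  have hlogQ : Real.log N / 4 ≤ Real.log Q := by
    have h1 : (N : ℝ) ≤ (Q : ℝ) ^ 4 := by
      have h2 : N ≤ Q ^ 4 := by
        have h3 : (Q + 1) ^ 2 ≤ Q ^ 4 := by
          have h4 : Q + 1 ≤ Q ^ 2 := by nlinarith
          calc (Q + 1) ^ 2 ≤ (Q ^ 2) ^ 2 := Nat.pow_le_pow_left h4 2
            _ = Q ^ 4 := by ring
        omega
      exact_mod_cast h2
    have h2 := Real.log_le_log hN0 h1
    rw [Real.log_pow] at h2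
    push_cast at h2
    linarith
  have hφ : (0 : ℝ) < D.totient := by exact_mod_cast Nat.totient_pos.2 hD1
  have hD0 : (0 : ℝ) < D := by exact_mod_cast hD1
  have hratio : 1 ≤ ((D : ℝ) / D.totient) := by
    rw [one_le_div hφ]
    exact_mod_cast Nat.totient_le D
  -- bound for `S`
  have hScard : (S.card : ℝ) ≤ 2 * C * 4 ^ K / c * (N / (Real.log N) ^ K * ((D : ℝ) / D.totient) ^ K) := by
    have h1 : (S.card : ℝ) * (c * ((D.totient : ℝ) / D * (Real.log N / 4)) ^ K) ≤ C * (2 * N) := by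
      calc (S.card : ℝ) * (c * ((D.totient : ℝ) / D * (Real.log N / 4)) ^ K)
          ≤ (S.card : ℝ) * (c * ((D.totient : ℝ) / D * Real.log Q) ^ K) := by
            refine mul_le_mul_of_nonneg_left ?_ (by positivity)
            refine mul_le_mul_of_nonneg_left ?_ hc.le
            refine pow_le_pow_left₀ (by positivity) ?_ K
            exact mul_le_mul_of_nonneg_left hlogQ (by positivity)
        _ ≤ (S.card : ℝ) * _ := mul_le_mul_of_nonneg_left hlow (by positivity)
        _ ≤ C * (N + (Q : ℝ) ^ 2) := hsieve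
        _ ≤ C * (2 * N) := by
            refine mul_le_mul_of_nonneg_left ?_ hC.le
            have : ((Q : ℝ)) ^ 2 ≤ N := by exact_mod_cast hQsq
            linarith
    have h2 : 0 < c * ((D.totient : ℝ) / D * (Real.log N / 4)) ^ K := by positivity
    rw [← le_div_iff₀ h2] at h1
    refine h1.trans (le_of_eq ?_)
    rw [mul_pow, div_pow, div_pow, div_pow]
    field_simp
  -- the small values of `y`
  have hsmall : (Q : ℝ) ≤ N / (Real.log N) ^ K * ((D : ℝ) / D.totient) ^ K := by
    have h1 : (Q : ℝ) ≤ (N : ℝ) ^ (1 / 2 : ℝ) := by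
      rw [← Real.sqrt_eq_rpow]
      refine Real.le_sqrt_of_sq_le ?_
      exact_mod_cast hQsq
    have h2 := hN1 N hNN1
    have h3 : (N : ℝ) ^ (1 / 2 : ℝ) ≤ N / (Real.log N) ^ K := by
      rw [le_div_iff₀ (by positivity)]
      calc (N : ℝ) ^ (1 / 2 : ℝ) * (Real.log N) ^ K ≤ (N : ℝ) ^ (1 / 2 : ℝ) * (N : ℝ) ^ (1 / 2 : ℝ) :=
            mul_le_mul_of_nonneg_left h2 (by positivity)
        _ = N := by rw [← Real.rpow_add hN0]; norm_num
    calc (Q : ℝ) ≤ N / (Real.log N) ^ K * 1 := by rw [mul_one]; exact h1.trans h3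
      _ ≤ _ := mul_le_mul_of_nonneg_left (one_le_pow₀ hratio) (by positivity)
  have hsub : (Icc 1 N).filter (fun y => ∀ j ∈ J, (y + j).Prime) ⊆ S ∪ Icc 1 Q := by
    intro y hy
    obtain ⟨h1, h2⟩ := Finset.mem_filter.1 hy
    rw [Finset.mem_union]
    rcases lt_or_ge Q y with h3 | h3
    · exact Or.inl (Finset.mem_filter.2 ⟨h1, h3, h2⟩)
    · exact Or.inr (Finset.mem_Icc.2 ⟨(Finset.mem_Icc.1 h1).1, h3⟩)
  have hcard : (((Icc 1 N).filter (fun y => ∀ j ∈ J, (y + j).Prime)).card : ℝ) ≤ S.card + Q := by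
    have h1 := (Finset.card_le_card hsub).trans (Finset.card_union_le _ _)
    rw [Nat.card_Icc, Nat.add_sub_cancel] at h1
    exact_mod_cast h1
  calc (((Icc 1 N).filter (fun y => ∀ j ∈ J, (y + j).Prime)).card : ℝ) ≤ S.card + Q := hcard
    _ ≤ 2 * C * 4 ^ K / c * (N / (Real.log N) ^ K * ((D : ℝ) / D.totient) ^ K) +
        N / (Real.log N) ^ K * ((D : ℝ) / D.totient) ^ K := add_le_add hScard hsmall
    _ = _ := by ring

end TIE
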