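import Pool.Agent.H70.TIE.Stmts

/-!
# Project TIE, module LJ: lower bound for the sieve sum
-/

set_option autoImplicit false

namespace TIE
open Finset MTA

theorem lj_coprime_rad {a D : ℕ} (hD : 1 ≤ D) :
    a.Coprime (∏ p ∈ D.primeFactors, p) ↔ a.Coprime D := by
  constructor
  · intro h
    refine Nat.Coprime.symm (Nat.coprime_of_dvd ?_)
    intro p hp hpD hpa
    have h1 : p ∣ ∏ p ∈ D.primeFactors, p :=
      Finset.dvd_prod_of_mem _ (Nat.mem_primeFactors.2 ⟨hp, hpD, by omega⟩)
    have h2 := Nat.dvd_gcd hpa h1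
    rw [Nat.coprime_iff_gcd_eq_one.1 h] at h2
    exact hp.one_lt.ne' (Nat.dvd_one.1 h2)
  · intro h
    exact h.coprime_dvd_right (Nat.prod_primeFactors_dvd D)

theorem lj_rad_squarefree (D : ℕ) : Squarefree (∏ p ∈ D.primeFactors, p) := by
  refine Finset.squarefree_prod_of_pairwise_isCoprime ?_ ?_
  · intro p hp q hq hpq
    have hp' := Nat.prime_of_mem_primeFactors (Finset.mem_coe.1 hp)
    have hq' := Nat.prime_of_mem_primeFactors (Finset.mem_coe.1 hq)
    exact Nat.coprime_iff_isRelPrime.1 ((Nat.coprime_primes hp' hq').2 hpq)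
  · intro p hp
    exact (Nat.prime_of_mem_primeFactors hp).squarefree

theorem lj_biUnion {ι α : Type*} [DecidableEq α] (s : Finset ι) (t : ι → Finset α) (g : α → ℝ)
    (hg : ∀ a, 0 ≤ g a) : ∑ a ∈ s.biUnion t, g a ≤ ∑ i ∈ s, ∑ a ∈ t i, g a := by
  classical
  induction s using Finset.induction_on with
  | empty => simp
  | insert i s hi ih =>
    rw [Finset.biUnion_insert, Finset.sum_insert hi]
    have h1 := Finset.sum_union_inter (s₁ := t i) (s₂ := s.biUnion t) (f := g)
    have h2 : 0 ≤ ∑ a ∈ t i ∩ s.biUnion t, g a := Finset.sum_nonneg fun a _ => hg a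
    linarith

theorem lj_phi (D : ℕ) (hD : 1 ≤ D) :
    ∏ p ∈ D.primeFactors, (1 - 1 / (p : ℝ)) = (D.totient : ℝ) / D := by
  have h := Nat.totient_eq_mul_prod_factors D
  have h2 : (D.totient : ℝ) = D * ∏ p ∈ D.primeFactors, (1 - (p : ℝ)⁻¹) := by
    have := congrArg (fun q : ℚ => (q : ℝ)) h
    push_cast at this
    exact this
  have hD0 : (D : ℝ) ≠ 0 := by positivity
  rw [h2]
  simp only [one_div]
  field_simp

/-- passing from `P` to `P D` -/
theorem lj_copr (h : S_COPR) (P D : ℕ) (hP : 0 < P) (hD : 1 ≤ D) (y : ℝ) :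
    (D.totient : ℝ) / D * Msum P y ≤ Msum (P * D) y := by
  have h1 := h P (∏ p ∈ D.primeFactors, p) y (fun _ => 1) hP
    (Finset.prod_pos fun p hp => (Nat.prime_of_mem_primeFactors hp).pos)
    (lj_rad_squarefree D) (fun _ => zero_le_one) (fun _ _ _ _ => le_rfl)
  rw [Nat.primeFactors_prod (fun p hp => Nat.prime_of_mem_primeFactors hp), lj_phi D hD] at h1
  refine h1.trans (le_of_eq ?_)
  unfold Msum
  refine Finset.sum_congr ?_ fun _ _ => rfl
  ext a
  simp only [SF, Finset.mem_filter]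
  rw [lj_coprime_rad hD, Nat.coprime_mul_iff_right]
  tauto

/-- the multiples of `p` -/
theorem lj_dvd (W : ℕ) (y : ℝ) (p : ℕ) (hp : p.Prime) :
    ∑ a ∈ (SF W y).filter (fun a => p ∣ a), (1 : ℝ) / a ≤ 1 / (p : ℝ) * Msum W y := by
  have hp0 : (0 : ℝ) < p := by exact_mod_cast hp.pos
  unfold Msum
  rw [Finset.mul_sum]
  have h1 : ∑ a ∈ (SF W y).filter (fun a => p ∣ a), (1 : ℝ) / a =
      ∑ b ∈ ((SF W y).filter (fun a => p ∣ a)).image (fun a => a / p), 1 / (p : ℝ) * (1 / (b : ℝ)) := by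
    rw [Finset.sum_image]
    · refine Finset.sum_congr rfl fun a ha => ?_
      obtain ⟨b, rfl⟩ := (Finset.mem_filter.1 ha).2
      rw [Nat.mul_div_cancel_left _ hp.pos]
      push_cast
      rw [one_div_mul_one_div]
    · intro a ha b hb hab
      have ha' := (Finset.mem_filter.1 (Finset.mem_coe.1 ha)).2
      have hb' := (Finset.mem_filter.1 (Finset.mem_coe.1 hb)).2
      obtain ⟨a', rfl⟩ := ha'
      obtain ⟨b', rfl⟩ := hb'
      simp only [Nat.mul_div_cancel_left _ hp.pos] at hab
      rw [hab]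
  rw [h1]
  refine Finset.sum_le_sum_of_subset_of_nonneg ?_ fun _ _ _ => by positivity
  intro b hb
  obtain ⟨a, ha, rfl⟩ := Finset.mem_image.1 hb
  obtain ⟨haS, c, rfl⟩ := Finset.mem_filter.1 ha
  rw [Nat.mul_div_cancel_left _ hp.pos]
  simp only [SF, Finset.mem_filter, Finset.mem_Icc] at haS ⊢
  obtain ⟨⟨h2, h3⟩, h4, h5⟩ := haS
  refine ⟨⟨?_, ?_⟩, ?_, ?_⟩
  · rcases Nat.eq_zero_or_pos c with rfl | hc
    · simp at h2
    · exact hc
  · exact (Nat.le_mul_of_pos_left c hp.pos).trans h3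
  · exact h4.squarefree_of_dvd (Dvd.intro_left p rfl)
  · exact h5.coprime_dvd_left (Dvd.intro_left p rfl)

/-- tuples -/
noncomputable def ljT (K W : ℕ) (y : ℝ) : Finset (Fin K → ℕ) := Fintype.piFinset fun _ => SF W y

theorem lj_sum_T (K W : ℕ) (y : ℝ) :
    ∑ f ∈ ljT K W y, ∏ i, (1 : ℝ) / f i = Msum W y ^ K := by
  unfold ljT Msum
  rw [← Finset.prod_univ_sum (fun _ => SF W y) (fun _ a => (1 : ℝ) / a)]
  simp

theorem lj_bad_ij (K W : ℕ) (y : ℝ) (i j : Fin K) (hij : i ≠ j) (p : ℕ) (hp : p.Prime) :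
    ∑ f ∈ (ljT K W y).filter (fun f => p ∣ f i ∧ p ∣ f j), ∏ i, (1 : ℝ) / f i ≤
      ((p : ℝ) ^ 2)⁻¹ * Msum W y ^ K := by
  classical
  have h1 : (ljT K W y).filter (fun f => p ∣ f i ∧ p ∣ f j) =
      Fintype.piFinset (fun l : Fin K => if l = i ∨ l = j then (SF W y).filter (fun a => p ∣ a) else SF W y) := by
    ext f
    simp only [ljT, Finset.mem_filter, Fintype.mem_piFinset]
    constructor
    · rintro ⟨h1, h2, h3⟩ l
      by_cases hl : l = i ∨ l = j
      · rw [if_pos hl, Finset.mem_filter]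
        refine ⟨h1 l, ?_⟩
        rcases hl with rfl | rfl
        · exact h2
        · exact h3
      · rw [if_neg hl]
        exact h1 l
    · intro h1
      refine ⟨fun l => ?_, ?_, ?_⟩
      · have := h1 l
        split_ifs at this with hl
        · exact (Finset.mem_filter.1 this).1
        · exact this
      · have := h1 i
        rw [if_pos (Or.inl rfl)] at this
        exact (Finset.mem_filter.1 this).2
      · have := h1 j
        rw [if_pos (Or.inr rfl)] at this
        exact (Finset.mem_filter.1 this).2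
  have hM : 0 ≤ Msum W y := Finset.sum_nonneg fun _ _ => by positivity
  rw [h1, ← Finset.prod_univ_sum
    (fun l : Fin K => if l = i ∨ l = j then (SF W y).filter (fun a => p ∣ a) else SF W y)
    (fun _ a => (1 : ℝ) / (a : ℝ))]
  calc ∏ l : Fin K, ∑ a ∈ (if l = i ∨ l = j then (SF W y).filter (fun a => p ∣ a) else SF W y), (1 : ℝ) / a
      ≤ ∏ l : Fin K, ((if l = i ∨ l = j then 1 / (p : ℝ) else 1) * Msum W y) := by
        refine Finset.prod_le_prod (fun l _ => Finset.sum_nonneg fun _ _ => by positivity) fun l _ => ?_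
        by_cases hl : l = i ∨ l = j
        · rw [if_pos hl, if_pos hl]
          exact lj_dvd W y p hp
        · rw [if_neg hl, if_neg hl, one_mul]
          exact le_rfl
    _ = (1 / (p : ℝ)) ^ 2 * Msum W y ^ K := by
        rw [Finset.prod_mul_distrib, Finset.prod_const, Finset.card_univ, Fintype.card_fin]
        congr 1
        rw [Finset.prod_ite, Finset.prod_const, Finset.prod_const_one, mul_one]
        congr 1
        have : (Finset.univ.filter fun l : Fin K => l = i ∨ l = j) = {i, j} := by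
          ext l; simp
        rw [this, Finset.card_pair hij]
    _ = ((p : ℝ) ^ 2)⁻¹ * Msum W y ^ K := by
        rw [one_div, inv_pow]

/-- pairwise coprime tuples carry at least `1/K` of the mass -/
theorem lj_good (K D : ℕ) (hK : 1 ≤ K) (y : ℝ) :
    1 / (K : ℝ) * Msum ((K ^ 2).factorial * D) y ^ K ≤
      ∑ f ∈ (ljT K ((K ^ 2).factorial * D) y).filter
        (fun f => ∀ i j : Fin K, i ≠ j → (f i).Coprime (f j)), ∏ i, (1 : ℝ) / f i := by
  classical
  set W := (K ^ 2).factorial * D with hW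
  set Y := ⌊y⌋₊
  have hM : 0 ≤ Msum W y := Finset.sum_nonneg fun _ _ => by positivity
  have hK0 : (0 : ℝ) < K := by exact_mod_cast hK
  have hsplit := Finset.sum_filter_add_sum_filter_not (ljT K W y)
    (fun f => ∀ i j : Fin K, i ≠ j → (f i).Coprime (f j)) (fun f => ∏ i, (1 : ℝ) / f i)
  rw [lj_sum_T] at hsplit
  have hbad : ∑ f ∈ (ljT K W y).filter (fun f => ¬ ∀ i j : Fin K, i ≠ j → (f i).Coprime (f j)),
      ∏ i, (1 : ℝ) / f i ≤ (1 - 1 / (K : ℝ)) * Msum W y ^ K := by
    calc ∑ f ∈ (ljT K W y).filter (fun f => ¬ ∀ i j : Fin K, i ≠ j → (f i).Coprime (f j)),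
          ∏ i, (1 : ℝ) / f i
        ≤ ∑ f ∈ ((Finset.univ : Finset (Fin K)).offDiag ×ˢ
            ((Ioc (K ^ 2) Y).filter Nat.Prime)).biUnion
            (fun z => (ljT K W y).filter (fun f => z.2 ∣ f z.1.1 ∧ z.2 ∣ f z.1.2)),
            ∏ i, (1 : ℝ) / f i := by
          refine Finset.sum_le_sum_of_subset_of_nonneg ?_ fun _ _ _ =>
            Finset.prod_nonneg fun _ _ => by positivity
          intro f hf
          obtain ⟨hfT, hf2⟩ := Finset.mem_filter.1 hf
          push Not at hf2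
          obtain ⟨i, j, hij, hnc⟩ := hf2
          obtain ⟨p, hp, hpi, hpj⟩ := Nat.Prime.not_coprime_iff_dvd.1 hnc
          rw [Finset.mem_biUnion]
          refine ⟨((i, j), p), ?_, ?_⟩
          · rw [Finset.mem_product, Finset.mem_offDiag, Finset.mem_filter, Finset.mem_Ioc]
            have hfi := Fintype.mem_piFinset.1 hfT i
            simp only [SF, Finset.mem_filter, Finset.mem_Icc] at hfi
            refine ⟨⟨Finset.mem_univ _, Finset.mem_univ _, hij⟩, ⟨?_, ?_⟩, hp⟩
            · by_contra hle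
              push Not at hle
              have h1 : p ∣ W := Dvd.dvd.mul_right (Nat.dvd_factorial hp.pos hle) D
              have h2 := Nat.dvd_gcd hpi h1
              rw [Nat.coprime_iff_gcd_eq_one.1 hfi.2.2] at h2
              exact hp.one_lt.ne' (Nat.dvd_one.1 h2)
            · exact (Nat.le_of_dvd (by omega) hpi).trans hfi.1.2
          · rw [Finset.mem_filter]
            exact ⟨hfT, hpi, hpj⟩
      _ ≤ ∑ z ∈ (Finset.univ : Finset (Fin K)).offDiag ×ˢ ((Ioc (K ^ 2) Y).filter Nat.Prime),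
            ∑ f ∈ (ljT K W y).filter (fun f => z.2 ∣ f z.1.1 ∧ z.2 ∣ f z.1.2),
            ∏ i, (1 : ℝ) / f i := by
          exact lj_biUnion _ _ _ fun f => Finset.prod_nonneg fun _ _ => by positivity
      _ ≤ ∑ z ∈ (Finset.univ : Finset (Fin K)).offDiag ×ˢ ((Ioc (K ^ 2) Y).filter Nat.Prime),
            (((z.2 : ℕ) : ℝ) ^ 2)⁻¹ * Msum W y ^ K := by
          refine Finset.sum_le_sum fun z hz => ?_
          rw [Finset.mem_product, Finset.mem_offDiag, Finset.mem_filter] at hz
          exact lj_bad_ij K W y z.1.1 z.1.2 hz.1.2.2 z.2 hz.2.2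
      _ = ((K : ℝ) * K - K) * ((∑ p ∈ (Ioc (K ^ 2) Y).filter Nat.Prime, ((p : ℝ) ^ 2)⁻¹) * Msum W y ^ K) := by
          rw [Finset.sum_product]
          simp only [← Finset.sum_mul]
          rw [Finset.sum_const, Finset.offDiag_card, Finset.card_univ, Fintype.card_fin, nsmul_eq_mul,
            Nat.cast_sub (Nat.le_mul_self K)]
          push_cast
          ring
      _ ≤ ((K : ℝ) * K - K) * (((K : ℝ) ^ 2)⁻¹ * Msum W y ^ K) := by
          have hKK : 0 ≤ (K : ℝ) * K - K := by
            have : (1 : ℝ) ≤ K := by exact_mod_cast hK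
            nlinarith
          refine mul_le_mul_of_nonneg_left ?_ hKK
          refine mul_le_mul_of_nonneg_right ?_ (by positivity)
          calc ∑ p ∈ (Ioc (K ^ 2) Y).filter Nat.Prime, ((p : ℝ) ^ 2)⁻¹
              ≤ ∑ p ∈ Ioc (K ^ 2) Y, ((p : ℝ) ^ 2)⁻¹ :=
                Finset.sum_le_sum_of_subset_of_nonneg (Finset.filter_subset _ _)
                  fun _ _ _ => by positivity
            _ ≤ ((K : ℝ) ^ 2)⁻¹ := by
                rcases le_or_gt (K ^ 2) Y with h | h
                · have := sum_Ioc_inv_sq_le_sub (α := ℝ) (k := K ^ 2) (n := Y) (by positivity) h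
                  refine this.trans ?_
                  push_cast
                  have : (0 : ℝ) ≤ (Y : ℝ)⁻¹ := by positivity
                  linarith
                · rw [Finset.Ioc_eq_empty (by omega), Finset.sum_empty]
                  positivity
      _ = (1 - 1 / (K : ℝ)) * Msum W y ^ K := by
          field_simp
  have h3 : 1 / (K : ℝ) * Msum W y ^ K = Msum W y ^ K - (1 - 1 / (K : ℝ)) * Msum W y ^ K := by ring
  linarith

/-- pairwise coprime tuples and their products -/
theorem lj_prod (K W Q : ℕ) (y : ℝ) (hyQ : (⌊y⌋₊) ^ K ≤ Q) :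
    ∑ f ∈ (ljT K W y).filter (fun f => ∀ i j : Fin K, i ≠ j → (f i).Coprime (f j)),
      ∏ i, (1 : ℝ) / f i ≤
    ∑ r ∈ (Icc 1 Q).filter (fun r => Squarefree r ∧ r.Coprime W),
      (K : ℝ) ^ r.primeFactors.card / r := by
  classical
  have hmem : ∀ f ∈ (ljT K W y).filter (fun f => ∀ i j : Fin K, i ≠ j → (f i).Coprime (f j)),
      (∏ i, f i) ∈ (Icc 1 Q).filter (fun r => Squarefree r ∧ r.Coprime W) := by
    intro f hf
    obtain ⟨hfT, hf2⟩ := Finset.mem_filter.1 hf
    have hfi := fun i => Fintype.mem_piFinset.1 hfT i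
    simp only [SF, Finset.mem_filter, Finset.mem_Icc] at hfi
    rw [Finset.mem_filter, Finset.mem_Icc]
    refine ⟨⟨?_, ?_⟩, ?_, ?_⟩
    · exact Finset.prod_pos fun i _ => Nat.lt_of_succ_le (hfi i).1.1
    · calc ∏ i, f i ≤ ∏ _i : Fin K, ⌊y⌋₊ := Finset.prod_le_prod' fun i _ => (hfi i).1.2
        _ = ⌊y⌋₊ ^ K := by simp
        _ ≤ Q := hyQ
    · refine Finset.squarefree_prod_of_pairwise_isCoprime ?_ ?_
      · intro i _ j _ hij
        exact Nat.coprime_iff_isRelPrime.1 (hf2 i j hij)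
      · intro i _
        exact (hfi i).2.1
    · exact Nat.Coprime.prod_left fun i _ => (hfi i).2.2
  calc ∑ f ∈ (ljT K W y).filter (fun f => ∀ i j : Fin K, i ≠ j → (f i).Coprime (f j)),
      ∏ i, (1 : ℝ) / f i
      = ∑ r ∈ (Icc 1 Q).filter (fun r => Squarefree r ∧ r.Coprime W),
        ∑ f ∈ ((ljT K W y).filter (fun f => ∀ i j : Fin K, i ≠ j → (f i).Coprime (f j))).filter
          (fun f => ∏ i, f i = r), ∏ i, (1 : ℝ) / f i :=
        (Finset.sum_fiberwise_of_maps_to hmem _).symm
    _ ≤ _ := by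
        refine Finset.sum_le_sum fun r hr => ?_
        rw [Finset.mem_filter, Finset.mem_Icc] at hr
        calc ∑ f ∈ ((ljT K W y).filter (fun f => ∀ i j : Fin K, i ≠ j → (f i).Coprime (f j))).filter
              (fun f => ∏ i, f i = r), ∏ i, (1 : ℝ) / f i
            = ∑ f ∈ ((ljT K W y).filter (fun f => ∀ i j : Fin K, i ≠ j → (f i).Coprime (f j))).filter
              (fun f => ∏ i, f i = r), (1 : ℝ) / r := by
              refine Finset.sum_congr rfl fun f hf => ?_
              have := (Finset.mem_filter.1 hf).2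
              rw [← this]
              push_cast
              simp
          _ ≤ ∑ f ∈ Nat.finMulAntidiag K r, (1 : ℝ) / r := by
              refine Finset.sum_le_sum_of_subset_of_nonneg ?_ fun _ _ _ => by positivity
              intro f hf
              rw [Nat.mem_finMulAntidiag]
              exact ⟨(Finset.mem_filter.1 hf).2, by omega⟩
          _ = (K : ℝ) ^ r.primeFactors.card / r := by
              rw [Finset.sum_const, Nat.card_finMulAntidiag_of_squarefree hr.2.1, nsmul_eq_mul,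
                ArithmeticFunction.cardDistinctFactors_apply, ← List.card_toFinset]
              push_cast
              rw [mul_one_div]
              rfl

theorem LJ (h1 : S_COPR) (h2 : S_MSUM) : S_LJ := by
  intro K hK
  obtain ⟨κ, C, hκ1, hκ2, hC, hMs⟩ := h2 ((K ^ 2).factorial) (Nat.factorial_pos _)
  have hK0 : (0 : ℝ) < K := by exact_mod_cast hK
  have hκ : 0 < κ := by
    refine lt_of_lt_of_le ?_ hκ1
    have : 0 < ((K ^ 2).factorial).totient := Nat.totient_pos.2 (Nat.factorial_pos _)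
    have h3 : (0 : ℝ) < ((K ^ 2).factorial).totient := by exact_mod_cast this
    have h4 : (0 : ℝ) < ((K ^ 2).factorial : ℕ) := by exact_mod_cast Nat.factorial_pos _
    positivity
  refine ⟨1 / K * (κ / (2 * K)) ^ K, by positivity, ⌈Real.exp (2 * K * C / κ)⌉₊ + 1, ?_⟩
  intro Q D hQ hD
  have hQ1 : Real.exp (2 * K * C / κ) ≤ Q := by
    refine (Nat.le_ceil _).trans ?_
    exact_mod_cast (by omega : ⌈Real.exp (2 * K * C / κ)⌉₊ ≤ Q)
  have hQ0 : (0 : ℝ) < Q := (Real.exp_pos _).trans_le hQ1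
  have hQ1' : (1 : ℝ) ≤ Q := by exact_mod_cast (by omega : 1 ≤ Q)
  have hlog : 2 * K * C / κ ≤ Real.log Q := (Real.le_log_iff_exp_le hQ0).2 hQ1
  set y : ℝ := (Q : ℝ) ^ (1 / (K : ℝ)) with hy
  have hy1 : 1 ≤ y := Real.one_le_rpow hQ1' (by positivity)
  have hlogy : Real.log y = Real.log Q / K := by
    rw [hy, Real.log_rpow hQ0]; ring
  have hyQ : (⌊y⌋₊) ^ K ≤ Q := by
    have h3 : ((⌊y⌋₊ : ℝ)) ^ K ≤ Q := by
      calc ((⌊y⌋₊ : ℝ)) ^ K ≤ y ^ K :=
            pow_le_pow_left₀ (by positivity) (Nat.floor_le (by linarith)) K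
        _ = Q := by
            rw [hy, ← Real.rpow_natCast, ← Real.rpow_mul hQ0.le, one_div_mul_cancel hK0.ne', Real.rpow_one]
    exact_mod_cast h3
  have hMP : κ / (2 * K) * Real.log Q ≤ Msum ((K ^ 2).factorial) y := by
    have h3 := (abs_le.1 (hMs y hy1)).1
    rw [hlogy] at h3
    have h4 : C ≤ κ / (2 * K) * Real.log Q := by
      calc C = κ / (2 * K) * (2 * K * C / κ) := by field_simp
        _ ≤ _ := mul_le_mul_of_nonneg_left hlog (by positivity)
    have h5 : κ * (Real.log Q / K) = 2 * (κ / (2 * K) * Real.log Q) := by field_simp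
    linarith
  have hD0 : (0 : ℝ) < D := by exact_mod_cast hD
  have hφ0 : (0 : ℝ) ≤ (D.totient : ℝ) / D := by positivity
  have hMD : κ / (2 * K) * ((D.totient : ℝ) / D * Real.log Q) ≤ Msum ((K ^ 2).factorial * D) y := by
    refine le_trans ?_ (lj_copr h1 _ D (Nat.factorial_pos _) hD y)
    calc κ / (2 * K) * ((D.totient : ℝ) / D * Real.log Q)
        = (D.totient : ℝ) / D * (κ / (2 * K) * Real.log Q) := by ring
      _ ≤ _ := mul_le_mul_of_nonneg_left hMP hφ0
  have hlogQ0 : 0 ≤ Real.log Q := Real.log_nonneg hQ1'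
  calc 1 / K * (κ / (2 * K)) ^ K * ((D.totient : ℝ) / D * Real.log Q) ^ K
      = 1 / K * (κ / (2 * K) * ((D.totient : ℝ) / D * Real.log Q)) ^ K := by rw [mul_pow]; ring
    _ ≤ 1 / K * Msum ((K ^ 2).factorial * D) y ^ K :=
        mul_le_mul_of_nonneg_left (pow_le_pow_left₀ (by positivity) hMD K) (by positivity)
    _ ≤ _ := lj_good K D hK y
    _ ≤ _ := lj_prod K _ Q y hyQ

end TIE
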