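import Pool.Agent.H70.TIE.Stmts2
import Pool.Agent.H36.TIE.AVG

/-!
# Project TIE, module AVGu: averages of powers of `gq q d` over a progression
-/

set_option autoImplicit false

namespace TIE
open Finset

theorem avgu_count (h q e κ : ℕ) (hqe : q.Coprime e) :
    (((Icc 1 h).filter (fun d => d ≡ κ [MOD q] ∧ e ∣ d)).card : ℝ) ≤ h / (q * e) + 1 := by
  have h1 : ((Icc 1 h).filter (fun d => d ≡ κ [MOD q] ∧ e ∣ d)).card ≤
      (range (h / (q * e) + 1)).card := by
    refine Finset.card_le_card_of_injOn (fun d => d / (q * e)) (fun d hd => ?_) ?_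
    · have h2 := (mem_Icc.1 (mem_filter.1 (Finset.mem_coe.1 hd)).1).2
      refine Finset.mem_coe.2 (mem_range.2 (Nat.lt_succ_of_le (Nat.div_le_div_right h2)))
    · intro d hd d' hd' hdd
      have h2 := (mem_filter.1 (Finset.mem_coe.1 hd)).2
      have h3 := (mem_filter.1 (Finset.mem_coe.1 hd')).2
      have h4 : d ≡ d' [MOD q] := h2.1.trans h3.1.symm
      have h5 : d ≡ d' [MOD e] :=
        ((Nat.modEq_zero_iff_dvd.2 h2.2).trans (Nat.modEq_zero_iff_dvd.2 h3.2).symm)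
      have h6 : d ≡ d' [MOD (q * e)] := (Nat.modEq_and_modEq_iff_modEq_mul hqe).1 ⟨h4, h5⟩
      have h7 := Nat.mod_add_div d (q * e)
      have h8 := Nat.mod_add_div d' (q * e)
      have h9 : d / (q * e) = d' / (q * e) := hdd
      rw [h6, h9] at h7
      omega
  rw [card_range] at h1
  have h2 : (((Icc 1 h).filter (fun d => d ≡ κ [MOD q] ∧ e ∣ d)).card : ℝ) ≤
      ((h / (q * e) + 1 : ℕ) : ℝ) := by exact_mod_cast h1
  refine h2.trans ?_
  push_cast
  have h3 : ((h / (q * e) : ℕ) : ℝ) ≤ (h : ℝ) / ((q * e : ℕ) : ℝ) := Nat.cast_div_le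
  push_cast at h3
  linarith

theorem avgu_sqrt (h : ℕ) : ∑ e ∈ Icc 1 h, 1 / Real.sqrt e ≤ 2 * Real.sqrt h := by
  induction h with
  | zero => simp
  | succ n ih =>
    rw [Finset.sum_Icc_succ_top (by omega)]
    have h0 : (0 : ℝ) ≤ n := Nat.cast_nonneg n
    have h1 : 0 < Real.sqrt ((n + 1 : ℕ) : ℝ) := Real.sqrt_pos.2 (by positivity)
    have h2 : 0 ≤ Real.sqrt (n : ℝ) := Real.sqrt_nonneg _
    have h3 := Real.sq_sqrt (show (0 : ℝ) ≤ ((n + 1 : ℕ) : ℝ) by positivity)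
    have h4 := Real.sq_sqrt h0
    have h5 : 1 / Real.sqrt ((n + 1 : ℕ) : ℝ) ≤
        2 * (Real.sqrt ((n + 1 : ℕ) : ℝ) - Real.sqrt n) := by
      rw [div_le_iff₀ h1]
      push_cast at h3 ⊢
      nlinarith [sq_nonneg (Real.sqrt ((n : ℝ) + 1) - Real.sqrt n)]
    linarith

/-- `2^K/(p-1) ≤ m_p / √p` -/
theorem avgu_g (K p : ℕ) (hp : p.Prime) : (2 : ℝ) ^ K / ((p : ℝ) - 1) ≤
    (if p < 4 ^ (K + 1) then (2 : ℝ) ^ (2 * K + 1) else 1) * (1 / Real.sqrt p) := by
  have h2 : (2 : ℝ) ≤ p := by exact_mod_cast hp.two_le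
  have hs0 : 0 < Real.sqrt p := Real.sqrt_pos.2 (by linarith)
  have hsq := Real.sq_sqrt (show (0 : ℝ) ≤ p by linarith)
  have hK : (1 : ℝ) ≤ 2 ^ K := one_le_pow₀ (by norm_num)
  rw [mul_one_div, div_le_div_iff₀ (by linarith) hs0]
  split_ifs with h
  · have h3 : Real.sqrt p ≤ 2 ^ (K + 1) := by
      rw [Real.sqrt_le_left (by positivity), ← pow_mul]
      have : (p : ℝ) ≤ ((4 ^ (K + 1) : ℕ) : ℝ) := by exact_mod_cast h.le
      refine this.trans (le_of_eq ?_)
      push_cast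
      rw [show (4 : ℝ) = 2 ^ 2 by norm_num, ← pow_mul, mul_comm]
    calc (2 : ℝ) ^ K * Real.sqrt p ≤ 2 ^ K * 2 ^ (K + 1) := by gcongr
      _ = 2 ^ (2 * K + 1) * 1 := by rw [mul_one, ← pow_add]; congr 1; ring
      _ ≤ 2 ^ (2 * K + 1) * ((p : ℝ) - 1) := by
          refine mul_le_mul_of_nonneg_left (by linarith) (by positivity)
  · push Not at h
    have h3 : (2 : ℝ) ^ (K + 1) ≤ Real.sqrt p := by
      refine Real.le_sqrt_of_sq_le ?_
      have : ((4 ^ (K + 1) : ℕ) : ℝ) ≤ p := by exact_mod_cast h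
      refine le_trans (le_of_eq ?_) this
      push_cast
      rw [show (4 : ℝ) = 2 ^ 2 by norm_num, ← pow_mul, ← pow_mul, mul_comm]
    have h4 : (2 : ℝ) ^ (K + 1) = 2 * 2 ^ K := by rw [pow_succ]; ring
    rw [h4] at h3
    nlinarith

theorem avgu_prod_g (K : ℕ) (s : Finset ℕ) (hs : ∀ p ∈ s, p.Prime) :
    ∏ p ∈ s, ((2 : ℝ) ^ K / ((p : ℝ) - 1)) ≤
      (2 : ℝ) ^ ((2 * K + 1) * 4 ^ (K + 1)) * (1 / Real.sqrt ((∏ p ∈ s, p : ℕ) : ℝ)) := by
  have h1 : ∏ p ∈ s, ((2 : ℝ) ^ K / ((p : ℝ) - 1)) ≤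
      ∏ p ∈ s, ((if p < 4 ^ (K + 1) then (2 : ℝ) ^ (2 * K + 1) else 1) * (1 / Real.sqrt p)) := by
    refine Finset.prod_le_prod (fun p hp => ?_) fun p hp => avgu_g K p (hs p hp)
    have h2 : (2 : ℝ) ≤ p := by exact_mod_cast (hs p hp).two_le
    have h3 : 0 < (p : ℝ) - 1 := by linarith
    positivity
  refine h1.trans ?_
  rw [Finset.prod_mul_distrib]
  have h2 : ∏ p ∈ s, (if p < 4 ^ (K + 1) then (2 : ℝ) ^ (2 * K + 1) else 1) ≤
      (2 : ℝ) ^ ((2 * K + 1) * 4 ^ (K + 1)) := by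
    rw [Finset.prod_ite, Finset.prod_const, Finset.prod_const_one, mul_one, ← pow_mul]
    refine pow_le_pow_right₀ (by norm_num) (Nat.mul_le_mul_left _ ?_)
    calc (s.filter (fun p => p < 4 ^ (K + 1))).card ≤ (range (4 ^ (K + 1))).card :=
          Finset.card_le_card fun p hp => mem_range.2 (mem_filter.1 hp).2
      _ = 4 ^ (K + 1) := card_range _
  have h3 : ∏ p ∈ s, (1 / Real.sqrt p) = 1 / Real.sqrt ((∏ p ∈ s, p : ℕ) : ℝ) := by
    have : Real.sqrt ((∏ p ∈ s, p : ℕ) : ℝ) = ∏ p ∈ s, Real.sqrt p := by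
      clear h1 h2 hs
      induction s using Finset.induction_on with
      | empty => simp
      | insert a s ha ih =>
        rw [Finset.prod_insert ha, Finset.prod_insert ha, Nat.cast_mul,
          Real.sqrt_mul (Nat.cast_nonneg _), ih]
    rw [this, Finset.prod_div_distrib, Finset.prod_const_one]
  rw [h3]
  exact mul_le_mul_of_nonneg_right h2 (by positivity)

theorem AVGu : S_AVGu := by
  classical
  intro K
  obtain ⟨M, hM⟩ : ∃ M : ℝ, M = (2 : ℝ) ^ ((2 * K + 1) * 4 ^ (K + 1)) := ⟨_, rfl⟩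
  have hM0 : 0 < M := by rw [hM]; positivity
  refine ⟨Real.exp (2 ^ K) + 1, by positivity, fun q hq => ⟨⌈(2 * M * q) ^ 2⌉₊, fun h κ hh => ?_⟩⟩
  have hq0 : (0 : ℝ) < q := by exact_mod_cast hq
  have hh0 : (0 : ℝ) ≤ h := Nat.cast_nonneg h
  have hhM : (2 * M * q) ^ 2 ≤ (h : ℝ) := (Nat.le_ceil _).trans (by exact_mod_cast hh)
  obtain ⟨g, hg⟩ : ∃ g : ℕ → ℝ, g = fun p : ℕ => (2 : ℝ) ^ K / ((p : ℝ) - 1) := ⟨_, rfl⟩
  have hg0 : ∀ p : ℕ, p.Prime → 0 ≤ g p := fun p hp => by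
    have h2 : (2 : ℝ) ≤ p := by exact_mod_cast hp.two_le
    have h3 : 0 < (p : ℝ) - 1 := by linarith
    rw [hg]
    positivity
  set P := (Icc 1 h).filter (fun p => p.Prime ∧ ¬ p ∣ q) with hP
  have hPp : ∀ p ∈ P, p.Prime := fun p hp => (mem_filter.1 hp).2.1
  have hPq : ∀ p ∈ P, ¬ p ∣ q := fun p hp => (mem_filter.1 hp).2.2
  have hP0 : ∀ s ⊆ P, 0 ≤ ∏ p ∈ s, g p := fun s hs =>
    Finset.prod_nonneg fun p hp => hg0 p (hPp p (hs hp))
  set A := (Icc 1 h).filter (fun d => d ≡ κ [MOD q]) with hA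
  have h1 : ∀ d ∈ A, (gq q d) ^ K ≤
      ∑ s ∈ P.powerset, if s ⊆ d.primeFactors then ∏ p ∈ s, g p else 0 := by
    intro d hd
    have hd' := mem_Icc.1 (mem_filter.1 hd).1
    have hd0 : d ≠ 0 := by omega
    unfold gq
    rw [← Finset.prod_pow]
    have e1 : ∏ p ∈ d.primeFactors.filter (fun p => ¬ p ∣ q), ((p : ℝ) / ((p : ℝ) - 1)) ^ K ≤
        ∏ p ∈ d.primeFactors.filter (fun p => ¬ p ∣ q), (1 + g p) := by
      refine Finset.prod_le_prod (fun p hp => ?_) fun p hp => ?_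
      · have h2 : (2 : ℝ) ≤ p := by
          exact_mod_cast (Nat.prime_of_mem_primeFactors (mem_filter.1 hp).1).two_le
        have h3 : 0 < (p : ℝ) - 1 := by linarith
        positivity
      · have h2 : (2 : ℝ) ≤ p := by
          exact_mod_cast (Nat.prime_of_mem_primeFactors (mem_filter.1 hp).1).two_le
        have h3 : 0 < (p : ℝ) - 1 := by linarith
        have h4 : 1 / ((p : ℝ) - 1) ≤ 1 := by
          rw [div_le_one h3]
          linarith
        have h5 : 0 ≤ 1 / ((p : ℝ) - 1) := by positivity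
        have h6 : (p : ℝ) / ((p : ℝ) - 1) = 1 + 1 / ((p : ℝ) - 1) := by
          field_simp
          ring
        rw [h6]
        refine (avg_pow h5 h4 K).trans ?_
        have e : g p = 2 ^ K * (1 / ((p : ℝ) - 1)) := by
          rw [hg]
          ring
        rw [e]
        linarith
    refine e1.trans ?_
    rw [Finset.prod_one_add]
    rw [← Finset.sum_filter]
    refine Finset.sum_le_sum_of_subset_of_nonneg (fun s hs => ?_) fun s hs _ => ?_
    · rw [mem_powerset] at hs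
      refine mem_filter.2 ⟨mem_powerset.2 fun p hp => ?_, fun p hp => (mem_filter.1 (hs hp)).1⟩
      have h2 := mem_filter.1 (hs hp)
      have h3 := Nat.prime_of_mem_primeFactors h2.1
      have h4 := Nat.le_of_dvd (by omega) (Nat.dvd_of_mem_primeFactors h2.1)
      exact mem_filter.2 ⟨mem_Icc.2 ⟨h3.one_lt.le, by omega⟩, h3, h2.2⟩
    · exact hP0 s (mem_powerset.1 (mem_filter.1 hs).1)
  refine (Finset.sum_le_sum h1).trans ?_
  rw [Finset.sum_comm]
  have h2 : ∀ s ∈ P.powerset,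
      ∑ d ∈ A, (if s ⊆ d.primeFactors then ∏ p ∈ s, g p else 0) ≤
        (h / q) * ∏ p ∈ s, (g p / p) + (if ∏ p ∈ s, p ≤ h then ∏ p ∈ s, g p else 0) := by
    intro s hs
    rw [mem_powerset] at hs
    have hsp : ∀ p ∈ s, p.Prime := fun p hp => hPp p (hs hp)
    have hsc : q.Coprime (∏ p ∈ s, p) := by
      refine Nat.Coprime.prod_right fun p hp => ?_
      exact ((Nat.Prime.coprime_iff_not_dvd (hsp p hp)).2 (hPq p (hs hp))).symm
    rw [← Finset.sum_filter, Finset.sum_const, nsmul_eq_mul, Finset.prod_div_distrib]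
    have e5 : 0 ≤ ∏ p ∈ s, g p := hP0 s hs
    have e6 : 0 < ∏ p ∈ s, (p : ℝ) := Finset.prod_pos fun p hp => by exact_mod_cast (hsp p hp).pos
    have e2 : A.filter (fun d => s ⊆ d.primeFactors) ⊆
        (Icc 1 h).filter (fun d => d ≡ κ [MOD q] ∧ (∏ p ∈ s, p) ∣ d) := by
      intro d hd
      have h3 := mem_filter.1 hd
      have h4 := mem_filter.1 h3.1
      refine mem_filter.2 ⟨h4.1, h4.2, ?_⟩
      exact Finset.prod_primes_dvd d (fun p hp => (hsp p hp).prime)
        fun p hp => Nat.dvd_of_mem_primeFactors (h3.2 hp)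
    by_cases hle : ∏ p ∈ s, p ≤ h
    · rw [if_pos hle]
      have e1 : ((A.filter (fun d => s ⊆ d.primeFactors)).card : ℝ) ≤
          h / (q * ∏ p ∈ s, (p : ℝ)) + 1 := by
        have e3 : ((A.filter (fun d => s ⊆ d.primeFactors)).card : ℝ) ≤
            (((Icc 1 h).filter (fun d => d ≡ κ [MOD q] ∧ (∏ p ∈ s, p) ∣ d)).card : ℝ) := by
          exact_mod_cast Finset.card_le_card e2
        refine e3.trans ((avgu_count h q _ κ hsc).trans (le_of_eq ?_))
        push_cast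
        rfl
      calc _ ≤ (h / (q * ∏ p ∈ s, (p : ℝ)) + 1) * ∏ p ∈ s, g p := by gcongr
        _ = h / q * ((∏ p ∈ s, g p) / ∏ p ∈ s, (p : ℝ)) + ∏ p ∈ s, g p := by
            field_simp
    · rw [if_neg hle, add_zero]
      have e3 : A.filter (fun d => s ⊆ d.primeFactors) = ∅ := by
        refine Finset.eq_empty_of_forall_notMem fun d hd => hle ?_
        have h3 := mem_filter.1 (e2 hd)
        have h4 := mem_Icc.1 h3.1
        exact (Nat.le_of_dvd (by omega) h3.2.2).trans h4.2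
      rw [e3]
      simp only [Finset.card_empty, Nat.cast_zero, zero_mul]
      positivity
  refine (Finset.sum_le_sum h2).trans ?_
  rw [Finset.sum_add_distrib, ← Finset.mul_sum, ← Finset.prod_one_add]
  have t1 : ∏ p ∈ P, (1 + g p / p) ≤ Real.exp (2 ^ K) := by
    refine le_trans ?_ (avg_prod K h)
    have e : ∏ p ∈ (Icc 1 h).filter Nat.Prime, (1 + (2 ^ K / ((p : ℝ) - 1)) / p) =
        ∏ p ∈ (Icc 1 h).filter Nat.Prime, (1 + g p / p) := by rw [hg]
    rw [e]
    have hsub : P ⊆ (Icc 1 h).filter Nat.Prime := fun p hp =>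
      mem_filter.2 ⟨(mem_filter.1 hp).1, (mem_filter.1 hp).2.1⟩
    have hge : ∀ p ∈ (Icc 1 h).filter Nat.Prime, 1 ≤ 1 + g p / p := fun p hp => by
      have h3 := (mem_filter.1 hp).2
      have h4 := hg0 p h3
      have h5 : (0 : ℝ) < p := by exact_mod_cast h3.pos
      have : 0 ≤ g p / p := by positivity
      linarith
    rw [← Finset.prod_sdiff hsub]
    have h6 : 1 ≤ ∏ p ∈ (Icc 1 h).filter Nat.Prime \ P, (1 + g p / p) := by
      calc (1 : ℝ) = ∏ p ∈ (Icc 1 h).filter Nat.Prime \ P, 1 := by simp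
        _ ≤ _ := Finset.prod_le_prod (fun _ _ => zero_le_one) fun p hp =>
          hge p (mem_sdiff.1 hp).1
    have h7 : 0 ≤ ∏ p ∈ P, (1 + g p / p) := Finset.prod_nonneg fun p hp => by
      linarith [hge p (hsub hp)]
    exact le_mul_of_one_le_left h7 h6
  have t2 : ∑ s ∈ P.powerset, (if ∏ p ∈ s, p ≤ h then ∏ p ∈ s, g p else 0) ≤ h / q := by
    calc ∑ s ∈ P.powerset, (if ∏ p ∈ s, p ≤ h then ∏ p ∈ s, g p else 0)
        ≤ ∑ s ∈ P.powerset.filter (fun s => ∏ p ∈ s, p ≤ h),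
            M * (1 / Real.sqrt ((∏ p ∈ s, p : ℕ) : ℝ)) := by
          rw [← Finset.sum_filter]
          refine Finset.sum_le_sum fun s hs => ?_
          have h3 := mem_powerset.1 (mem_filter.1 hs).1
          rw [hg, hM]
          exact avgu_prod_g K s fun p hp => hPp p (h3 hp)
      _ = ∑ e ∈ (P.powerset.filter (fun s => ∏ p ∈ s, p ≤ h)).image (fun s => ∏ p ∈ s, p),
            M * (1 / Real.sqrt (e : ℝ)) := by
          rw [Finset.sum_image]
          intro s hs t ht hst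
          have h3 := mem_powerset.1 (mem_filter.1 (Finset.mem_coe.1 hs)).1
          have h4 := mem_powerset.1 (mem_filter.1 (Finset.mem_coe.1 ht)).1
          have h5 : (∏ p ∈ s, p).primeFactors = (∏ p ∈ t, p).primeFactors := congrArg _ hst
          rw [Nat.primeFactors_prod fun p hp => hPp p (h3 hp),
            Nat.primeFactors_prod fun p hp => hPp p (h4 hp)] at h5
          exact h5
      _ ≤ ∑ e ∈ Icc 1 h, M * (1 / Real.sqrt (e : ℝ)) := by
          refine Finset.sum_le_sum_of_subset_of_nonneg ?_ fun _ _ _ => by positivity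
          intro e he
          obtain ⟨s, hs, rfl⟩ := mem_image.1 he
          have h3 := mem_filter.1 hs
          exact mem_Icc.2 ⟨Finset.prod_pos fun p hp => (hPp p (mem_powerset.1 h3.1 hp)).pos, h3.2⟩
      _ ≤ M * (2 * Real.sqrt h) := by
          rw [← Finset.mul_sum]
          exact mul_le_mul_of_nonneg_left (avgu_sqrt h) hM0.le
      _ ≤ h / q := by
          rw [le_div_iff₀ hq0]
          have h3 : 2 * M * q ≤ Real.sqrt h := Real.le_sqrt_of_sq_le hhM
          have h4 := Real.sq_sqrt hh0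
          have h5 := Real.sqrt_nonneg (h : ℝ)
          calc M * (2 * Real.sqrt h) * q = (2 * M * q) * Real.sqrt h := by ring
            _ ≤ Real.sqrt h * Real.sqrt h := mul_le_mul_of_nonneg_right h3 h5
            _ = h := by rw [← sq, h4]
  have t3 : (0 : ℝ) ≤ h / q := by positivity
  calc (h : ℝ) / q * ∏ p ∈ P, (1 + g p / p) +
        ∑ s ∈ P.powerset, (if ∏ p ∈ s, p ≤ h then ∏ p ∈ s, g p else 0)
      ≤ h / q * Real.exp (2 ^ K) + h / q := add_le_add (mul_le_mul_of_nonneg_left t1 t3) t2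
    _ = (Real.exp (2 ^ K) + 1) * (h / q) := by ring

end TIE
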