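import Pool.Agent.H70.TIE.Stmts2
import Pool.Agent.H96.TIE.KT

/-!
# Project TIE, module KTu: upper bound sieve for `K`-tuples in a progression, uniform in the modulus
-/

set_option autoImplicit false

namespace TIE
open Finset MTA

/-- the number of classes, in the variable `t = y / q + 1` -/
theorem ktu_classes (K N Q q y1 : ℕ) (J : Finset ℕ) (hJ : J.card = K) (p : ℕ) (hp : p.Prime) (hpQ : p ≤ Q)
    (hpD : ¬ p ∣ DJ J) (hpq : ¬ p ∣ q) :
    ((((Icc 1 N).filter (fun y => y % q = y1 ∧ Q < y ∧ ∀ j ∈ J, (y + j).Prime)).image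
      (fun y => y / q + 1)).image (fun n => n % p)).card + K ≤ p := by
  classical
  have hfact : Fact p.Prime := ⟨hp⟩
  have hnz : NeZero p := ⟨hp.ne_zero⟩
  have hq0 : (q : ZMod p) ≠ 0 := by
    rw [Ne, ZMod.natCast_eq_zero_iff]; exact hpq
  -- the excluded classes
  set B : Finset (ZMod p) := J.image (fun j : ℕ => 1 - ((y1 : ZMod p) + j) * (q : ZMod p)⁻¹) with hB
  have hBc : B.card = K := by
    rw [hB, Finset.card_image_of_injOn, hJ]
    intro i hi j hj hij
    have hij' : (i : ZMod p) = (j : ZMod p) := by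
      have h1 : ((y1 : ZMod p) + i) * (q : ZMod p)⁻¹ = ((y1 : ZMod p) + j) * (q : ZMod p)⁻¹ := by
        have := hij
        simp only [sub_right_inj] at this
        exact this
      exact add_left_cancel (mul_right_cancel₀ (inv_ne_zero hq0) h1)
    rcases lt_trichotomy i j with h | h | h
    · exfalso
      apply hpD
      refine Dvd.dvd.trans ?_ (kt_dvd_DJ J hi hj h)
      rw [ZMod.natCast_eq_natCast_iff] at hij'
      exact (Nat.modEq_iff_dvd' h.le).1 hij'
    · exact h
    · exfalso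
      apply hpD
      refine Dvd.dvd.trans ?_ (kt_dvd_DJ J hj hi h)
      rw [ZMod.natCast_eq_natCast_iff] at hij'
      exact (Nat.modEq_iff_dvd' h.le).1 hij'.symm
  set S := (Icc 1 N).filter (fun y => y % q = y1 ∧ Q < y ∧ ∀ j ∈ J, (y + j).Prime) with hS
  set A : Finset (ZMod p) := S.image (fun y : ℕ => ((y / q + 1 : ℕ) : ZMod p)) with hA
  have hdis : Disjoint A B := by
    rw [Finset.disjoint_left]
    intro a ha hb
    obtain ⟨y, hy, rfl⟩ := Finset.mem_image.1 ha
    obtain ⟨j, hj, hjy⟩ := Finset.mem_image.1 hb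
    obtain ⟨-, hy1, hyQ, hyp⟩ := Finset.mem_filter.1 hy
    have hyq : (y : ZMod p) = (y1 : ZMod p) + q * ((y / q : ℕ) : ZMod p) := by
      have := Nat.mod_add_div y q
      rw [hy1] at this
      conv_lhs => rw [← this]
      push_cast
      ring
    have h0 : ((y + j : ℕ) : ZMod p) = 0 := by
      push_cast at hjy ⊢
      rw [hyq]
      have h2 : ((y / q : ℕ) : ZMod p) = - (((y1 : ZMod p) + j) * (q : ZMod p)⁻¹) := by
        linear_combination -hjy
      rw [h2]
      field_simp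
      ring
    rw [ZMod.natCast_eq_zero_iff] at h0
    have h1 := (Nat.prime_dvd_prime_iff_eq hp (hyp j hj)).1 h0
    omega
  have hcard : A.card + B.card ≤ p := by
    rw [← Finset.card_union_of_disjoint hdis]
    calc (A ∪ B).card ≤ (Finset.univ : Finset (ZMod p)).card := Finset.card_le_univ _
      _ = p := by rw [Finset.card_univ, ZMod.card]
  have hAc : ((S.image (fun y => y / q + 1)).image (fun n => n % p)).card ≤ A.card := by
    have : (S.image (fun y => y / q + 1)).image (fun n => n % p) = A.image (fun a => a.val) := by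
      rw [hA, Finset.image_image, Finset.image_image]
      refine Finset.image_congr fun n _ => ?_
      simp only [Function.comp_apply]
      rw [ZMod.val_natCast]
    rw [this]
    exact Finset.card_image_le
  rw [hBc] at hcard
  omega

/-- the ratio `D q / φ(D q)` -/
theorem ktu_ratio (q D : ℕ) (hq : 1 ≤ q) (hD : 1 ≤ D) :
    ((D * q : ℕ) : ℝ) / ((D * q).totient : ℝ) = (q : ℝ) / q.totient * gq q D := by
  have hphi : ∀ n : ℕ, 1 ≤ n → (n : ℝ) / n.totient = ∏ p ∈ n.primeFactors, ((p : ℝ) / ((p : ℝ) - 1)) := by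
    intro n hn
    have h := Nat.totient_eq_mul_prod_factors n
    have h2 : (n.totient : ℝ) = n * ∏ p ∈ n.primeFactors, (1 - (p : ℝ)⁻¹) := by
      have := congrArg (fun q : ℚ => (q : ℝ)) h
      push_cast at this
      exact this
    have hn0 : (n : ℝ) ≠ 0 := by positivity
    rw [h2]
    have h3 : ∏ p ∈ n.primeFactors, ((p : ℝ) / ((p : ℝ) - 1)) =
        (∏ p ∈ n.primeFactors, (1 - (p : ℝ)⁻¹))⁻¹ := by
      rw [← Finset.prod_inv_distrib]
      refine Finset.prod_congr rfl fun p hp => ?_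
      have hp1 : (1 : ℝ) < p := by exact_mod_cast (Nat.prime_of_mem_primeFactors hp).one_lt
      have hp0 : (p : ℝ) ≠ 0 := by positivity
      have hp2 : (p : ℝ) - 1 ≠ 0 := by linarith
      field_simp
    rw [h3]
    have h4 : ∏ p ∈ n.primeFactors, (1 - (p : ℝ)⁻¹) ≠ 0 := by
      refine Finset.prod_ne_zero_iff.2 fun p hp => ?_
      have hp1 : (1 : ℝ) < p := by exact_mod_cast (Nat.prime_of_mem_primeFactors hp).one_lt
      have : (p : ℝ)⁻¹ < 1 := inv_lt_one_of_one_lt₀ hp1
      linarith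
    field_simp
  have hDq : 1 ≤ D * q := Nat.mul_pos hD hq
  rw [hphi _ hDq, hphi q hq, gq, Nat.primeFactors_mul (by omega) (by omega)]
  have e : D.primeFactors ∪ q.primeFactors =
      q.primeFactors ∪ D.primeFactors.filter (fun p => ¬ p ∣ q) := by
    ext p
    simp only [Finset.mem_union, Finset.mem_filter, Nat.mem_primeFactors]
    constructor
    · rintro (⟨h1, h2, h3⟩ | h)
      · by_cases hpq : p ∣ q
        · exact Or.inl ⟨h1, hpq, by omega⟩
        · exact Or.inr ⟨⟨h1, h2, h3⟩, hpq⟩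
      · exact Or.inl h
    · rintro (h | ⟨h, -⟩)
      · exact Or.inr h
      · exact Or.inl h
  rw [e, Finset.prod_union]
  rw [Finset.disjoint_left]
  intro p hp hp'
  exact (Finset.mem_filter.1 hp').2 (Nat.dvd_of_mem_primeFactors hp)

theorem gq_one_le (q D : ℕ) : 1 ≤ gq q D := by
  unfold gq
  have h : ∀ s : Finset ℕ, (∀ p ∈ s, p.Prime) → 1 ≤ ∏ p ∈ s, ((p : ℝ) / ((p : ℝ) - 1)) := by
    intro s hs
    calc (1 : ℝ) = ∏ p ∈ s, 1 := by simp
      _ ≤ _ := Finset.prod_le_prod (fun _ _ => zero_le_one) fun p hp => by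
        have hp1 : (1 : ℝ) < p := by exact_mod_cast (hs p hp).one_lt
        rw [one_le_div (by linarith)]
        linarith
  exact h _ fun p hp => Nat.prime_of_mem_primeFactors (Finset.mem_filter.1 hp).1

theorem KTu (hALS : S_ALS) (hLJ : S_LJ) : S_KTu := by
  classical
  intro K hK
  obtain ⟨C, hC, hA⟩ := hALS
  obtain ⟨c, hc, Q0, hL⟩ := hLJ K hK
  obtain ⟨N1, hN1⟩ := kt_log (2 * K)
  refine ⟨4 * C * 8 ^ K / c + 1, by positivity, ?_⟩
  intro q hq
  refine ⟨max (max ((Q0 + 1) ^ 2 * q) (16 * q)) (max N1 (4 * q ^ 4 + 16)), ?_⟩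
  intro N y0 hN J hJ
  have hNa : (Q0 + 1) ^ 2 * q ≤ N := le_trans (le_max_left _ _) (le_trans (le_max_left _ _) hN)
  have hNb : 16 * q ≤ N := le_trans (le_max_right _ _) (le_trans (le_max_left _ _) hN)
  have hNN1 : N1 ≤ N := le_trans (le_max_left _ _) (le_trans (le_max_right _ _) hN)
  have hNc : 4 * q ^ 4 + 16 ≤ N := le_trans (le_max_right _ _) (le_trans (le_max_right _ _) hN)
  have hqN : q ≤ N := by nlinarith
  set D := DJ J with hD
  have hD1 : 1 ≤ D := kt_DJ_pos J
  have hDq1 : 1 ≤ D * q := Nat.mul_pos hD1 hq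
  set N' := N / q + 1 with hN'
  have hN'a : (Q0 + 1) ^ 2 ≤ N' := by
    have := (Nat.le_div_iff_mul_le hq).2 hNa
    omega
  have hN'b : 16 ≤ N' := by
    have := (Nat.le_div_iff_mul_le hq).2 hNb
    omega
  set Q := Nat.sqrt N' with hQ
  have hQQ0 : Q0 ≤ Q := by
    have : Q0 + 1 ≤ Nat.sqrt N' := Nat.le_sqrt'.2 hN'a
    omega
  have hQ4 : 4 ≤ Q := Nat.le_sqrt'.2 (by omega)
  have hQsq : Q ^ 2 ≤ N' := Nat.sqrt_le' N'
  have hQsq2 : N' < (Q + 1) ^ 2 := Nat.lt_succ_sqrt' N'
  set y1 := y0 % q with hy1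
  set S := (Icc 1 N).filter (fun y => y % q = y1 ∧ Q < y ∧ ∀ j ∈ J, (y + j).Prime) with hS
  set S' := S.image (fun y => y / q + 1) with hS'
  have hS'c : S'.card = S.card := by
    rw [hS', Finset.card_image_of_injOn]
    intro y hy z hz hyz
    have h1 := (Finset.mem_filter.1 (Finset.mem_coe.1 hy)).2.1
    have h2 := (Finset.mem_filter.1 (Finset.mem_coe.1 hz)).2.1
    have h3 : y / q = z / q := by
      have := hyz
      simp only at this
      omega
    have h4 := Nat.mod_add_div y q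
    have h5 := Nat.mod_add_div z q
    rw [h1, h3] at h4
    rw [h2] at h5
    omega
  have hS'sub : S' ⊆ Icc 1 N' := by
    intro t ht
    obtain ⟨y, hy, rfl⟩ := Finset.mem_image.1 ht
    have h1 := (Finset.mem_Icc.1 (Finset.mem_filter.1 hy).1).2
    rw [Finset.mem_Icc]
    have := Nat.div_le_div_right (c := q) h1
    exact ⟨Nat.succ_le_succ (Nat.zero_le _), Nat.succ_le_succ this⟩
  have hKK : K ≤ K ^ 2 := Nat.le_self_pow two_ne_zero K
  -- the weights
  set w : ℕ → ℕ := fun p => if p ∣ (K ^ 2).factorial * (D * q) then 0 else K with hw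
  have hgt : ∀ p : ℕ, p.Prime → ¬ p ∣ (K ^ 2).factorial * (D * q) → K < p ∧ ¬ p ∣ D ∧ ¬ p ∣ q := by
    intro p hp hpd
    refine ⟨?_, fun h => hpd (Dvd.dvd.mul_left (Dvd.dvd.mul_right h _) _),
      fun h => hpd (Dvd.dvd.mul_left (Dvd.dvd.mul_left h _) _)⟩
    by_contra hle
    push Not at hle
    exact hpd (Dvd.dvd.mul_right (Nat.dvd_factorial hp.pos (hle.trans hKK)) _)
  have hsieve := hA N' Q (by omega) (by omega) S' hS'sub w (by
    intro p hp hpQ
    simp only [hw]
    split_ifs with hd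
    · refine ⟨hp.pos, ?_⟩
      rw [add_zero]
      calc (S'.image fun n => n % p).card ≤ (range p).card :=
            Finset.card_le_card fun a ha => by
              obtain ⟨n, -, rfl⟩ := Finset.mem_image.1 ha
              exact Finset.mem_range.2 (Nat.mod_lt _ hp.pos)
        _ = p := Finset.card_range p
    · obtain ⟨h1, h2, h3⟩ := hgt p hp hd
      exact ⟨h1, ktu_classes K N Q q y1 J hJ p hp hpQ h2 h3⟩)
  rw [hS'c] at hsieve
  -- lower bound for the sum
  have hlow : c * (((D * q).totient : ℝ) / ((D * q : ℕ) : ℝ) * Real.log Q) ^ K ≤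
      ∑ r ∈ (Icc 1 Q).filter Squarefree, ∏ p ∈ r.primeFactors, ((w p : ℝ) / ((p : ℝ) - w p)) := by
    refine (hL Q (D * q) hQQ0 hDq1).trans ?_
    have hwnn : ∀ p : ℕ, p.Prime → 0 ≤ ((w p : ℝ) / ((p : ℝ) - w p)) := by
      intro p hp
      simp only [hw]
      split_ifs with hd
      · simp
      · have h1 : (K : ℝ) < p := by exact_mod_cast (hgt p hp hd).1
        have h2 : 0 < (p : ℝ) - K := by linarith
        positivity
    calc ∑ r ∈ (Icc 1 Q).filter (fun r => Squarefree r ∧ r.Coprime ((K ^ 2).factorial * (D * q))),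
          (K : ℝ) ^ r.primeFactors.card / r
        ≤ ∑ r ∈ (Icc 1 Q).filter (fun r => Squarefree r ∧ r.Coprime ((K ^ 2).factorial * (D * q))),
          ∏ p ∈ r.primeFactors, ((w p : ℝ) / ((p : ℝ) - w p)) := by
          refine Finset.sum_le_sum fun r hr => ?_
          obtain ⟨hr1, hr2, hr3⟩ := Finset.mem_filter.1 hr
          have hrp : ((r : ℕ) : ℝ) = ∏ p ∈ r.primeFactors, (p : ℝ) := by
            conv_lhs => rw [← Nat.prod_primeFactors_of_squarefree hr2]
            push_cast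
            rfl
          rw [hrp, ← Finset.prod_const, ← Finset.prod_div_distrib]
          refine Finset.prod_le_prod (fun p _ => by positivity) fun p hp => ?_
          have hpp := Nat.prime_of_mem_primeFactors hp
          have hpr := Nat.dvd_of_mem_primeFactors hp
          have hd : ¬ p ∣ (K ^ 2).factorial * (D * q) := by
            intro hd
            have h2 := Nat.dvd_gcd hpr hd
            rw [Nat.coprime_iff_gcd_eq_one.1 hr3] at h2
            exact hpp.one_lt.ne' (Nat.dvd_one.1 h2)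
          have hwp : w p = K := by simp only [hw]; rw [if_neg hd]
          rw [hwp]
          have h1 : (K : ℝ) < p := by exact_mod_cast (hgt p hpp hd).1
          refine div_le_div_of_nonneg_left (by positivity) (by linarith) ?_
          have : (0 : ℝ) ≤ K := by positivity
          linarith
      _ ≤ _ := by
          refine Finset.sum_le_sum_of_subset_of_nonneg ?_ fun r _ _ =>
            Finset.prod_nonneg fun p hp => hwnn p (Nat.prime_of_mem_primeFactors hp)
          intro r hr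
          obtain ⟨hr1, hr2, -⟩ := Finset.mem_filter.1 hr
          exact Finset.mem_filter.2 ⟨hr1, hr2⟩
  -- logarithms
  have hN0 : (0 : ℝ) < N := by exact_mod_cast (by omega : 0 < N)
  have hq0 : (0 : ℝ) < q := by exact_mod_cast hq
  have hq1 : (1 : ℝ) ≤ q := by exact_mod_cast hq
  have hQ0' : (0 : ℝ) < Q := by exact_mod_cast (by omega : 0 < Q)
  have hlogN : 0 < Real.log N := Real.log_pos (by exact_mod_cast (by omega : 1 < N))
  have hNq : (N : ℝ) / q ≤ N' := by
    rw [div_le_iff₀ hq0]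
    have h1 : N ≤ N' * q := by
      have h2 := Nat.lt_div_mul_add (a := N) hq
      have h3 : N' * q = N / q * q + q := by rw [hN']; ring
      omega
    exact_mod_cast h1
  have hN'2 : (N' : ℝ) ≤ 2 * (N / q) := by
    have h1 : ((N / q : ℕ) : ℝ) ≤ (N : ℝ) / q := Nat.cast_div_le
    have h2 : (1 : ℝ) ≤ (N : ℝ) / q := by
      rw [one_le_div hq0]; exact_mod_cast hqN
    rw [hN']
    push_cast
    linarith
  have hNq4 : (4 : ℝ) * q ^ 4 ≤ N := by
    have : 4 * q ^ 4 ≤ N := by omega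
    exact_mod_cast this
  have hlogQ : Real.log N / 8 ≤ Real.log Q := by
    have h1 : (N : ℝ) / q ≤ (Q : ℝ) ^ 4 := by
      have h2 : N' ≤ Q ^ 4 := by
        have h3 : (Q + 1) ^ 2 ≤ Q ^ 4 := by
          have h4 : Q + 1 ≤ Q ^ 2 := by nlinarith
          calc (Q + 1) ^ 2 ≤ (Q ^ 2) ^ 2 := Nat.pow_le_pow_left h4 2
            _ = Q ^ 4 := by ring
        omega
      refine hNq.trans ?_
      exact_mod_cast h2
    have h2 := Real.log_le_log (by positivity) h1
    rw [Real.log_pow, Real.log_div hN0.ne' hq0.ne'] at h2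
    have h3 : 2 * Real.log q ≤ Real.log N := by
      have h5 : (q : ℝ) ^ 2 ≤ N := by
        have : (q : ℝ) ^ 2 ≤ q ^ 4 := pow_le_pow_right₀ hq1 (by norm_num)
        have h0 : (0 : ℝ) ≤ q ^ 4 := by positivity
        linarith
      have h4 := Real.log_le_log (by positivity) h5
      rw [Real.log_pow] at h4
      push_cast at h4
      linarith
    push_cast at h2
    linarith
  have hφ : (0 : ℝ) < (D * q).totient := by exact_mod_cast Nat.totient_pos.2 hDq1
  have hDq0 : (0 : ℝ) < ((D * q : ℕ) : ℝ) := by exact_mod_cast hDq1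
  obtain ⟨ρ, hρ⟩ : ∃ ρ : ℝ, ρ = ((D * q : ℕ) : ℝ) / ((D * q).totient : ℝ) := ⟨_, rfl⟩
  have hρ1 : 1 ≤ ρ := by
    rw [hρ, one_le_div hφ]
    exact_mod_cast Nat.totient_le _
  have hρ0 : 0 < ρ := by linarith
  have hρe : ρ = (q : ℝ) / q.totient * gq q D := hρ.trans (ktu_ratio q D hq hD1)
  have hρi : ((D * q).totient : ℝ) / ((D * q : ℕ) : ℝ) = 1 / ρ := by
    rw [hρ, one_div_div]
  rw [hρi] at hlow
  -- bound for `S`
  have hScard : (S.card : ℝ) ≤ 4 * C * 8 ^ K / c * ((N / q) * (ρ / Real.log N) ^ K) := by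
    have h1 : (S.card : ℝ) * (c * (1 / ρ * (Real.log N / 8)) ^ K) ≤ C * (4 * (N / q)) := by
      calc (S.card : ℝ) * (c * (1 / ρ * (Real.log N / 8)) ^ K)
          ≤ (S.card : ℝ) * (c * (1 / ρ * Real.log Q) ^ K) := by
            refine mul_le_mul_of_nonneg_left ?_ (by positivity)
            refine mul_le_mul_of_nonneg_left ?_ hc.le
            refine pow_le_pow_left₀ (by positivity) ?_ K
            exact mul_le_mul_of_nonneg_left hlogQ (by positivity)
        _ ≤ (S.card : ℝ) * _ := mul_le_mul_of_nonneg_left hlow (by positivity)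
        _ ≤ C * (N' + (Q : ℝ) ^ 2) := hsieve
        _ ≤ C * (4 * (N / q)) := by
            refine mul_le_mul_of_nonneg_left ?_ hC.le
            have : ((Q : ℝ)) ^ 2 ≤ N' := by exact_mod_cast hQsq
            linarith
    have h2 : 0 < c * (1 / ρ * (Real.log N / 8)) ^ K := by positivity
    rw [← le_div_iff₀ h2] at h1
    refine h1.trans (le_of_eq ?_)
    rw [mul_pow, div_pow, div_pow, div_pow, one_pow]
    field_simp
  -- the small values of `y`
  have hsmall : (Q : ℝ) ≤ (N / q) * (ρ / Real.log N) ^ K := by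
    have h1 : (Q : ℝ) ≤ Real.sqrt (2 * N) := by
      refine Real.le_sqrt_of_sq_le ?_
      have h2 : ((Q : ℝ)) ^ 2 ≤ N' := by exact_mod_cast hQsq
      have h3 : (N : ℝ) / q ≤ N := div_le_self hN0.le hq1
      linarith
    have h2 := hN1 N hNN1
    -- `(log N)^K ≤ N^(1/4)`
    have h3 : (Real.log N) ^ K ≤ (N : ℝ) ^ (1 / 4 : ℝ) := by
      have h4 : ((Real.log N) ^ K) ^ 2 ≤ ((N : ℝ) ^ (1 / 4 : ℝ)) ^ 2 := by
        rw [← pow_mul, mul_comm K 2, ← Real.rpow_natCast ((N : ℝ) ^ (1 / 4 : ℝ)) 2,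
          ← Real.rpow_mul hN0.le]
        norm_num
        norm_num at h2
        exact h2
      exact le_of_sq_le_sq h4 (by positivity)
    have h5 : Real.sqrt (2 * N) * q ≤ (N : ℝ) ^ (3 / 4 : ℝ) := by
      refine le_of_sq_le_sq ?_ (by positivity)
      rw [mul_pow, Real.sq_sqrt (by positivity), ← Real.rpow_natCast ((N : ℝ) ^ (3 / 4 : ℝ)) 2,
        ← Real.rpow_mul hN0.le]
      have h6 : (N : ℝ) ^ ((3 / 4 : ℝ) * ((2 : ℕ) : ℝ)) = N * (N : ℝ) ^ (1 / 2 : ℝ) := by
        have e : ((3 / 4 : ℝ) * ((2 : ℕ) : ℝ)) = 1 + 1 / 2 := by norm_num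
        rw [e, Real.rpow_add hN0, Real.rpow_one]
      rw [h6]
      have h7 : 2 * (q : ℝ) ^ 2 ≤ (N : ℝ) ^ (1 / 2 : ℝ) := by
        rw [← Real.sqrt_eq_rpow]
        refine Real.le_sqrt_of_sq_le ?_
        calc (2 * (q : ℝ) ^ 2) ^ (2 : ℕ) = 4 * (q : ℝ) ^ 4 := by ring
          _ ≤ (N : ℝ) := hNq4
      calc 2 * (N : ℝ) * q ^ 2 = N * (2 * q ^ 2) := by ring
        _ ≤ N * (N : ℝ) ^ (1 / 2 : ℝ) := mul_le_mul_of_nonneg_left h7 hN0.le
    have h8 : Real.sqrt (2 * N) ≤ (N / q) / (Real.log N) ^ K := by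
      rw [le_div_iff₀ (by positivity), le_div_iff₀ hq0]
      calc Real.sqrt (2 * N) * (Real.log N) ^ K * q = (Real.sqrt (2 * N) * q) * (Real.log N) ^ K := by ring
        _ ≤ (N : ℝ) ^ (3 / 4 : ℝ) * (N : ℝ) ^ (1 / 4 : ℝ) :=
            mul_le_mul h5 h3 (by positivity) (by positivity)
        _ = N := by rw [← Real.rpow_add hN0]; norm_num
    calc (Q : ℝ) ≤ (N / q) / (Real.log N) ^ K * 1 := by rw [mul_one]; exact h1.trans h8
      _ ≤ (N / q) / (Real.log N) ^ K * ρ ^ K :=
          mul_le_mul_of_nonneg_left (one_le_pow₀ hρ1) (by positivity)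
      _ = _ := by rw [div_pow]; ring
  have hsub : (Icc 1 N).filter (fun y => y ≡ y0 [MOD q] ∧ ∀ j ∈ J, (y + j).Prime) ⊆ S ∪ Icc 1 Q := by
    intro y hy
    obtain ⟨h1, h2, h3⟩ := Finset.mem_filter.1 hy
    rw [Finset.mem_union]
    rcases lt_or_ge Q y with h4 | h4
    · exact Or.inl (Finset.mem_filter.2 ⟨h1, h2, h4, h3⟩)
    · exact Or.inr (Finset.mem_Icc.2 ⟨(Finset.mem_Icc.1 h1).1, h4⟩)
  have hcard : (((Icc 1 N).filter (fun y => y ≡ y0 [MOD q] ∧ ∀ j ∈ J, (y + j).Prime)).card : ℝ) ≤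
      S.card + Q := by
    have h1 := (Finset.card_le_card hsub).trans (Finset.card_union_le _ _)
    rw [Nat.card_Icc, Nat.add_sub_cancel] at h1
    exact_mod_cast h1
  calc (((Icc 1 N).filter (fun y => y ≡ y0 [MOD q] ∧ ∀ j ∈ J, (y + j).Prime)).card : ℝ)
      ≤ S.card + Q := hcard
    _ ≤ 4 * C * 8 ^ K / c * ((N / q) * (ρ / Real.log N) ^ K) + (N / q) * (ρ / Real.log N) ^ K :=
        add_le_add hScard hsmall
    _ = _ := by rw [hρe]; ring

end TIE
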