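import Pool.Agent.H96.TIE.AVGu
import Pool.Agent.H96.TIE.KTu
import Pool.Agent.H36.TIE.JAV

/-!
# Project TIE, module JAVu: average over `K`-subsets of two classes
-/

set_option autoImplicit false

namespace TIE
open Finset

theorem gq_one (q : ℕ) : gq q 1 = 1 := by
  unfold gq
  simp

theorem gq_mul {q a b : ℕ} (ha : a ≠ 0) (hb : b ≠ 0) : gq q (a * b) ≤ gq q a * gq q b := by
  classical
  unfold gq
  rw [Nat.primeFactors_mul ha hb, Finset.filter_union]
  have hge : ∀ s : Finset ℕ, (∀ p ∈ s, p.Prime) → 1 ≤ ∏ p ∈ s, ((p : ℝ) / ((p : ℝ) - 1)) := by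
    intro s hs
    calc (1 : ℝ) = ∏ p ∈ s, 1 := by simp
      _ ≤ _ := Finset.prod_le_prod (fun _ _ => zero_le_one) fun p hp => by
        have hp1 : (1 : ℝ) < p := by exact_mod_cast (hs p hp).one_lt
        rw [one_le_div (by linarith)]
        linarith
  rw [← Finset.prod_union_inter]
  have h1 : ∀ p ∈ (a.primeFactors.filter (fun p => ¬ p ∣ q)) ∪ (b.primeFactors.filter (fun p => ¬ p ∣ q)),
      p.Prime := by
    intro p hp
    rcases mem_union.1 hp with h | h
    · exact Nat.prime_of_mem_primeFactors (mem_filter.1 h).1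
    · exact Nat.prime_of_mem_primeFactors (mem_filter.1 h).1
  refine le_mul_of_one_le_right (by linarith [hge _ h1]) (hge _ fun p hp => ?_)
  exact h1 p (mem_union_left _ (mem_inter.1 hp).1)

theorem gq_prod {ι : Type*} (q : ℕ) (s : Finset ι) (f : ι → ℕ) (hf : ∀ i ∈ s, f i ≠ 0) :
    gq q (∏ i ∈ s, f i) ≤ ∏ i ∈ s, gq q (f i) := by
  classical
  induction s using Finset.induction_on with
  | empty => simp [gq_one]
  | insert a s ha ih =>
    rw [Finset.prod_insert ha, Finset.prod_insert ha]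
    have h1 : ∀ i ∈ s, f i ≠ 0 := fun i hi => hf i (mem_insert_of_mem hi)
    have h2 : f a ≠ 0 := hf a (mem_insert_self a s)
    refine (gq_mul h2 (Finset.prod_ne_zero_iff.2 h1)).trans ?_
    exact mul_le_mul_of_nonneg_left (ih h1) (by linarith [gq_one_le q (f a)])

/-- subsets with two given elements -/
theorem card_two_u (K : ℕ) (A : Finset ℕ) (H : ℝ) (hH : (A.card : ℝ) ≤ H) (i j : ℕ) (hij : i ≠ j) :
    (((A.powersetCard K).filter (fun J => i ∈ J ∧ j ∈ J)).card : ℝ) * H ^ 2 ≤ H ^ K := by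
  classical
  have hH0 : 0 ≤ H := (Nat.cast_nonneg _).trans hH
  rcases Nat.lt_or_ge K 2 with hK | hK
  · have : (A.powersetCard K).filter (fun J => i ∈ J ∧ j ∈ J) = ∅ := by
      refine Finset.filter_eq_empty_iff.2 fun J hJ hm => ?_
      have h1 := (mem_powersetCard.1 hJ).2
      have h2 : ({i, j} : Finset ℕ) ⊆ J := by
        intro x hx
        rcases mem_insert.1 hx with rfl | hx
        · exact hm.1
        · rw [mem_singleton.1 hx]
          exact hm.2
      have h3 := Finset.card_le_card h2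
      rw [Finset.card_pair hij] at h3
      omega
    rw [this]
    simp only [Finset.card_empty, Nat.cast_zero, zero_mul]
    positivity
  · obtain ⟨k, rfl⟩ : ∃ k, K = k + 2 := ⟨K - 2, by omega⟩
    have h1 : ((A.powersetCard (k + 2)).filter (fun J => i ∈ J ∧ j ∈ J)).card ≤
        (A.powersetCard k).card := by
      refine Finset.card_le_card_of_injOn (fun J => (J.erase i).erase j) (fun J hJ => ?_) ?_
      · have h2 := mem_filter.1 (Finset.mem_coe.1 hJ)
        have h3 := mem_powersetCard.1 h2.1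
        refine Finset.mem_coe.2 (mem_powersetCard.2 ⟨fun x hx => h3.1
          (mem_of_mem_erase (mem_of_mem_erase hx)), ?_⟩)
        rw [Finset.card_erase_of_mem (mem_erase.2 ⟨hij.symm, h2.2.2⟩),
          Finset.card_erase_of_mem h2.2.1, h3.2]
        rfl
      · intro J hJ J' hJ' he
        have h2 := (mem_filter.1 (Finset.mem_coe.1 hJ)).2
        have h3 := (mem_filter.1 (Finset.mem_coe.1 hJ')).2
        have e1 : insert i (insert j ((J.erase i).erase j)) = J := by
          rw [Finset.insert_erase (mem_erase.2 ⟨hij.symm, h2.2⟩), Finset.insert_erase h2.1]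
        have e2 : insert i (insert j ((J'.erase i).erase j)) = J' := by
          rw [Finset.insert_erase (mem_erase.2 ⟨hij.symm, h3.2⟩), Finset.insert_erase h3.1]
        rw [← e1, ← e2]
        exact congrArg (fun s => insert i (insert j s)) he
    rw [Finset.card_powersetCard] at h1
    have h2 : ((A.powersetCard (k + 2)).filter (fun J => i ∈ J ∧ j ∈ J)).card ≤
        A.card ^ k := h1.trans (Nat.choose_le_pow _ _)
    have h3 : (((A.powersetCard (k + 2)).filter (fun J => i ∈ J ∧ j ∈ J)).card : ℝ) ≤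
        H ^ k := by
      have : (((A.powersetCard (k + 2)).filter (fun J => i ∈ J ∧ j ∈ J)).card : ℝ) ≤
        (A.card : ℝ) ^ k := by exact_mod_cast h2
      exact this.trans (pow_le_pow_left₀ (Nat.cast_nonneg _) hH k)
    rw [pow_add]
    exact mul_le_mul_of_nonneg_right h3 (by positivity)

/-- the shifted class -/
theorem class_shift (q a n d : ℕ) (hq : 1 ≤ q) :
    n + d ≡ a [MOD q] ↔ d ≡ a + (q - 1) * n [MOD q] := by
  have h1 : n + (a + (q - 1) * n) ≡ a [MOD q] := by
    have : n + (a + (q - 1) * n) = a + q * n := by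
      obtain ⟨k, rfl⟩ : ∃ k, q = k + 1 := ⟨q - 1, by omega⟩
      rw [Nat.add_sub_cancel]
      ring
    rw [this]
    unfold Nat.ModEq
    rw [Nat.add_mul_mod_self_left]
  constructor
  · intro h
    exact Nat.ModEq.add_left_cancel' n (h.trans h1.symm)
  · intro h
    exact (h.add_left n).trans h1

theorem JAVu (hA : S_AVGu) : S_JAVu := by
  classical
  intro K hK
  obtain ⟨C, hC, hA⟩ := hA (K * K ^ 2)
  refine ⟨4 ^ K * (1 + C), by positivity, fun q hq => ?_⟩
  obtain ⟨h0, hA⟩ := hA q hq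
  refine ⟨max h0 q, fun a b h y0 hh => ?_⟩
  have hh0' : h0 ≤ h := (le_max_left _ _).trans hh
  have hqh : q ≤ h := (le_max_right _ _).trans hh
  have hq0 : (0 : ℝ) < q := by exact_mod_cast hq
  have hh1 : 1 ≤ h := hq.trans hqh
  have hh0 : (0 : ℝ) < h := by exact_mod_cast hh1
  set A := (Icc 1 h).filter (fun j => y0 + j ≡ a [MOD q] ∨ y0 + j ≡ b [MOD q]) with hAdef
  obtain ⟨H, hH⟩ : ∃ H : ℝ, H = 4 * (h / q) := ⟨_, rfl⟩
  have hH0 : 0 < H := by rw [hH]; positivity
  have hhq1 : (1 : ℝ) ≤ h / q := by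
    rw [one_le_div hq0]; exact_mod_cast hqh
  -- the number of elements
  have hAc : (A.card : ℝ) ≤ H := by
    have h1 : A ⊆ ((Icc 1 h).filter (fun d => d ≡ a + (q - 1) * y0 [MOD q] ∧ 1 ∣ d)) ∪
        ((Icc 1 h).filter (fun d => d ≡ b + (q - 1) * y0 [MOD q] ∧ 1 ∣ d)) := by
      intro j hj
      obtain ⟨h2, h3⟩ := mem_filter.1 hj
      rw [mem_union]
      rcases h3 with h3 | h3
      · exact Or.inl (mem_filter.2 ⟨h2, (class_shift q a y0 j hq).1 h3, one_dvd _⟩)
      · exact Or.inr (mem_filter.2 ⟨h2, (class_shift q b y0 j hq).1 h3, one_dvd _⟩)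
    have h2 := (Finset.card_le_card h1).trans (Finset.card_union_le _ _)
    have h3 := avgu_count h q 1 (a + (q - 1) * y0) (Nat.coprime_one_right q)
    have h4 := avgu_count h q 1 (b + (q - 1) * y0) (Nat.coprime_one_right q)
    have h5 : (A.card : ℝ) ≤
        (((Icc 1 h).filter (fun d => d ≡ a + (q - 1) * y0 [MOD q] ∧ 1 ∣ d)).card : ℝ) +
        (((Icc 1 h).filter (fun d => d ≡ b + (q - 1) * y0 [MOD q] ∧ 1 ∣ d)).card : ℝ) := by
      exact_mod_cast h2
    rw [Nat.cast_one, mul_one] at h3 h4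
    rw [hH]
    linarith
  -- one set
  have h1 : ∀ J ∈ A.powersetCard K, (gq q (DJ J)) ^ K ≤
      1 + ∑ x ∈ PJ A, if x.1 ∈ J ∧ x.2 ∈ J then gq q (x.2 - x.1) ^ (K * K ^ 2) else 0 := by
    intro J hJ
    have h2 := mem_powersetCard.1 hJ
    have h3 : ∀ x ∈ PJ J, x.2 - x.1 ≠ 0 := fun x hx => by
      have := (mem_filter.1 hx).2
      omega
    rw [dj_pj]
    have h5 : gq q (∏ x ∈ PJ J, (x.2 - x.1)) ^ K ≤ ∏ x ∈ PJ J, gq q (x.2 - x.1) ^ K := by
      rw [Finset.prod_pow]
      refine pow_le_pow_left₀ ?_ (gq_prod _ _ _ h3) K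
      linarith [gq_one_le q (∏ x ∈ PJ J, (x.2 - x.1))]
    refine h5.trans ?_
    have h6 : (PJ J).card ≤ K ^ 2 := by
      refine (Finset.card_filter_le _ _).trans ?_
      rw [Finset.card_product, h2.2, pow_two]
    refine (prod_le_sum (PJ J) (fun x => gq q (x.2 - x.1) ^ K) (fun x _ =>
      one_le_pow₀ (gq_one_le q _)) h6).trans ?_
    rw [← Finset.sum_filter]
    have hS : ∑ x ∈ PJ J, (gq q (x.2 - x.1) ^ K) ^ (K ^ 2) ≤
        ∑ x ∈ (PJ A).filter (fun x => x.1 ∈ J ∧ x.2 ∈ J), gq q (x.2 - x.1) ^ (K * K ^ 2) := by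
      have e : ∑ x ∈ PJ J, (gq q (x.2 - x.1) ^ K) ^ (K ^ 2) =
          ∑ x ∈ PJ J, gq q (x.2 - x.1) ^ (K * K ^ 2) :=
        Finset.sum_congr rfl fun x _ => (pow_mul _ _ _).symm
      rw [e]
      refine Finset.sum_le_sum_of_subset_of_nonneg (fun x hx => ?_) fun x hx _ => ?_
      · have h7 := mem_filter.1 hx
        have h8 := mem_product.1 h7.1
        exact mem_filter.2 ⟨mem_filter.2 ⟨mem_product.2 ⟨h2.1 h8.1, h2.1 h8.2⟩, h7.2⟩, h8⟩
      · have := gq_one_le q (x.2 - x.1)
        exact pow_nonneg (by linarith) _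
    exact add_le_add le_rfl hS
  refine (Finset.sum_le_sum h1).trans ?_
  rw [Finset.sum_add_distrib, Finset.sum_comm]
  have e1 : ∑ _J ∈ A.powersetCard K, (1 : ℝ) ≤ H ^ K := by
    rw [Finset.sum_const, Finset.card_powersetCard, nsmul_eq_mul, mul_one]
    have : (A.card).choose K ≤ A.card ^ K := Nat.choose_le_pow _ _
    have h3 : ((A.card).choose K : ℝ) ≤ (A.card : ℝ) ^ K := by exact_mod_cast this
    exact h3.trans (pow_le_pow_left₀ (Nat.cast_nonneg _) hAc K)
  have e2 : ∑ x ∈ PJ A, ∑ J ∈ A.powersetCard K,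
      (if x.1 ∈ J ∧ x.2 ∈ J then gq q (x.2 - x.1) ^ (K * K ^ 2) else 0) ≤ C * H ^ K := by
    have h2 : ∀ x ∈ PJ A, ∑ J ∈ A.powersetCard K,
        (if x.1 ∈ J ∧ x.2 ∈ J then gq q (x.2 - x.1) ^ (K * K ^ 2) else 0) ≤
        H ^ K / H ^ 2 * gq q (x.2 - x.1) ^ (K * K ^ 2) := by
      intro x hx
      have h3 := (mem_filter.1 hx).2
      have h4 := gq_one_le q (x.2 - x.1)
      rw [← Finset.sum_filter, Finset.sum_const, nsmul_eq_mul]
      refine mul_le_mul_of_nonneg_right ?_ (by positivity)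
      rw [le_div_iff₀ (by positivity)]
      exact card_two_u K A H hAc x.1 x.2 h3.ne
    refine (Finset.sum_le_sum h2).trans ?_
    rw [← Finset.mul_sum]
    have hnn : ∀ d : ℕ, 0 ≤ gq q d ^ (K * K ^ 2) := fun d => by
      have := gq_one_le q d
      positivity
    have h3 : ∑ x ∈ PJ A, gq q (x.2 - x.1) ^ (K * K ^ 2) ≤ H * (2 * (C * (h / q))) := by
      unfold PJ
      rw [Finset.sum_filter, Finset.sum_product]
      have h4 : ∀ i ∈ A, ∑ j ∈ A,
          (if i < j then gq q (j - i) ^ (K * K ^ 2) else 0) ≤ 2 * (C * (h / q)) := by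
        intro i hi
        have ha := hA h (a + (q - 1) * (y0 + i)) hh0'
        have hb := hA h (b + (q - 1) * (y0 + i)) hh0'
        rw [← Finset.sum_filter]
        have h5 : ∑ j ∈ A.filter (fun j => i < j), gq q (j - i) ^ (K * K ^ 2) =
            ∑ d ∈ (A.filter (fun j => i < j)).image (fun j => j - i),
              gq q d ^ (K * K ^ 2) := by
          rw [Finset.sum_image]
          intro j hj j' hj' he
          have := (mem_filter.1 (Finset.mem_coe.1 hj)).2
          have := (mem_filter.1 (Finset.mem_coe.1 hj')).2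
          simp only at he
          omega
        rw [h5]
        calc ∑ d ∈ (A.filter (fun j => i < j)).image (fun j => j - i), gq q d ^ (K * K ^ 2)
            ≤ ∑ d ∈ ((Icc 1 h).filter (fun d => d ≡ a + (q - 1) * (y0 + i) [MOD q])) ∪
                ((Icc 1 h).filter (fun d => d ≡ b + (q - 1) * (y0 + i) [MOD q])),
                gq q d ^ (K * K ^ 2) := by
              refine Finset.sum_le_sum_of_subset_of_nonneg (fun d hd => ?_) fun d _ _ => hnn d
              obtain ⟨j, hj, rfl⟩ := mem_image.1 hd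
              have h6 := mem_filter.1 hj
              have h7 := mem_filter.1 h6.1
              have h8 := mem_Icc.1 h7.1
              have h9 : j - i ∈ Icc 1 h := mem_Icc.2 ⟨by omega, by omega⟩
              have h10 : y0 + j = (y0 + i) + (j - i) := by omega
              rw [mem_union]
              rcases h7.2 with h11 | h11
              · rw [h10] at h11
                exact Or.inl (mem_filter.2 ⟨h9, (class_shift q a _ _ hq).1 h11⟩)
              · rw [h10] at h11
                exact Or.inr (mem_filter.2 ⟨h9, (class_shift q b _ _ hq).1 h11⟩)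
          _ ≤ ∑ d ∈ (Icc 1 h).filter (fun d => d ≡ a + (q - 1) * (y0 + i) [MOD q]),
                gq q d ^ (K * K ^ 2) +
              ∑ d ∈ (Icc 1 h).filter (fun d => d ≡ b + (q - 1) * (y0 + i) [MOD q]),
                gq q d ^ (K * K ^ 2) := by
              rw [← Finset.sum_union_inter]
              have : 0 ≤ ∑ d ∈ ((Icc 1 h).filter (fun d => d ≡ a + (q - 1) * (y0 + i) [MOD q])) ∩
                ((Icc 1 h).filter (fun d => d ≡ b + (q - 1) * (y0 + i) [MOD q])),
                gq q d ^ (K * K ^ 2) := Finset.sum_nonneg fun d _ => hnn d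
              linarith
          _ ≤ 2 * (C * (h / q)) := by linarith
      refine (Finset.sum_le_sum h4).trans ?_
      rw [Finset.sum_const, nsmul_eq_mul]
      exact mul_le_mul_of_nonneg_right hAc (by positivity)
    calc H ^ K / H ^ 2 * ∑ x ∈ PJ A, gq q (x.2 - x.1) ^ (K * K ^ 2) ≤
        H ^ K / H ^ 2 * (H * (2 * (C * (h / q)))) := by gcongr
      _ = H ^ K / H ^ 2 * (H * (C * (H / 2))) := by rw [hH]; ring
      _ = C * H ^ K / 2 := by
          field_simp
      _ ≤ C * H ^ K := by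
          have : 0 ≤ C * H ^ K := by positivity
          linarith
  calc ∑ _J ∈ A.powersetCard K, (1 : ℝ) + ∑ x ∈ PJ A, ∑ J ∈ A.powersetCard K,
      (if x.1 ∈ J ∧ x.2 ∈ J then gq q (x.2 - x.1) ^ (K * K ^ 2) else 0)
      ≤ H ^ K + C * H ^ K := add_le_add e1 e2
    _ = 4 ^ K * (1 + C) * (h / q) ^ K := by rw [hH, mul_pow]; ring

end TIE
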