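import Pool.Agent.H70.TIE.Stmts2
import Pool.Agent.H36.TIE.MOM

/-!
# Project TIE, module MOMu: moments of the number of primes of two classes in short intervals
-/

set_option autoImplicit false

namespace TIE
open Finset

theorem xab_choose (K q a b h y y0 : ℕ) (hy : y ≡ y0 [MOD q]) : ((Xab q a b h y).choose K) =
    ((((Icc 1 h).filter (fun j => y0 + j ≡ a [MOD q] ∨ y0 + j ≡ b [MOD q])).powersetCard K).filter
      (fun J => ∀ j ∈ J, (y + j).Prime)).card := by
  classical
  have hs : ∀ j c : ℕ, y + j ≡ c [MOD q] ↔ y0 + j ≡ c [MOD q] := fun j c =>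
    ⟨fun h => ((hy.symm.add_right j).trans h), fun h => ((hy.add_right j).trans h)⟩
  have e1 : Xab q a b h y =
      (((Icc 1 h).filter (fun j => y0 + j ≡ a [MOD q] ∨ y0 + j ≡ b [MOD q])).filter
        (fun j => (y + j).Prime)).card := by
    unfold Xab
    refine (Finset.card_bij (fun j _ => y + j) (fun j hj => ?_) (fun j _ j' _ he => by omega)
      fun n hn => ?_).symm
    · have h1 := mem_filter.1 hj
      have h2 := mem_filter.1 h1.1
      have h3 := mem_Icc.1 h2.1
      exact mem_filter.2 ⟨mem_Ioc.2 ⟨by omega, by omega⟩, h1.2, by rw [hs, hs]; exact h2.2⟩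
    · have h1 := mem_filter.1 hn
      have h2 := mem_Ioc.1 h1.1
      have h3 : y + (n - y) = n := Nat.add_sub_cancel' h2.1.le
      refine ⟨n - y, mem_filter.2 ⟨mem_filter.2 ⟨mem_Icc.2 ⟨by omega, by omega⟩, ?_⟩, ?_⟩, by omega⟩
      · rw [← hs, ← hs, h3]
        exact h1.2.2
      · rw [h3]
        exact h1.2.1
  rw [e1, ← Finset.card_powersetCard]
  congr 1
  ext J
  rw [mem_powersetCard, mem_filter, mem_powersetCard]
  constructor
  · rintro ⟨h1, h2⟩
    exact ⟨⟨fun j hj => (mem_filter.1 (h1 hj)).1, h2⟩, fun j hj => (mem_filter.1 (h1 hj)).2⟩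
  · rintro ⟨⟨h1, h2⟩, h3⟩
    exact ⟨fun j hj => mem_filter.2 ⟨h1 hj, h3 j hj⟩, h2⟩

theorem MOMu (hT : S_KTu) (hJ : S_JAVu) : S_MOMu := by
  classical
  intro K hK
  obtain ⟨C₁, hC₁, hT⟩ := hT K hK
  obtain ⟨C₂, hC₂, hJ⟩ := hJ K hK
  obtain ⟨B, hB⟩ : ∃ B : ℝ, B = (2 * K : ℝ) ^ K := ⟨_, rfl⟩
  have hK' : (1 : ℝ) ≤ K := by exact_mod_cast hK
  have hB0 : 0 < B := by rw [hB]; positivity
  refine ⟨B * (1 + C₁ * C₂), by positivity, fun q hq => ?_⟩
  obtain ⟨N₁, hT⟩ := hT q hq
  obtain ⟨h₀, hJ⟩ := hJ q hq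
  refine ⟨max (max N₁ 3) ⌈Real.exp h₀⌉₊, fun a b N h hN hh => ?_⟩
  have hN1 : N₁ ≤ N := (le_max_left _ _).trans ((le_max_left _ _).trans hN)
  have hN3 : 3 ≤ N := (le_max_right _ _).trans ((le_max_left _ _).trans hN)
  have hNe : Real.exp h₀ ≤ N := (Nat.le_ceil _).trans (by exact_mod_cast (le_max_right _ _).trans hN)
  have hN0' : (0 : ℝ) < N := by exact_mod_cast (by omega : 0 < N)
  have hlog : 0 < Real.log N := Real.log_pos (by exact_mod_cast (by omega : 1 < N))
  have hq0 : (0 : ℝ) < q := by exact_mod_cast hq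
  have hφ : 0 < q.totient := Nat.totient_pos.2 hq
  have hφ0 : (0 : ℝ) < q.totient := by exact_mod_cast hφ
  have hφ1 : (1 : ℝ) ≤ q.totient := by exact_mod_cast hφ
  have hpl : 0 < q.totient * Real.log N := mul_pos hφ0 hlog
  have hh0 : (0 : ℝ) < h := hpl.trans_le hh
  have hh1 : h₀ ≤ h := by
    have h1 : (h₀ : ℝ) ≤ Real.log N := (Real.le_log_iff_exp_le hN0').2 hNe
    have h2 : Real.log N ≤ q.totient * Real.log N := le_mul_of_one_le_left hlog.le hφ1
    exact_mod_cast h1.trans (h2.trans hh)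
  have hN0 : (0 : ℝ) ≤ N := Nat.cast_nonneg N
  have h1 : ∑ y ∈ Icc 1 N, (Xab q a b h y : ℝ) ^ K ≤
      ∑ y ∈ Icc 1 N, B * (1 + ((Xab q a b h y).choose K : ℝ)) :=
    Finset.sum_le_sum fun y _ => by
      rw [hB]
      exact pow_choose _ _ hK
  refine h1.trans ?_
  rw [← Finset.mul_sum, Finset.sum_add_distrib]
  have h2 : ∑ _y ∈ Icc 1 N, (1 : ℝ) ≤ N * (h / (q.totient * Real.log N)) ^ K := by
    rw [Finset.sum_const, Nat.card_Icc, nsmul_eq_mul, mul_one]
    have : (1 : ℝ) ≤ (h / (q.totient * Real.log N)) ^ K :=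
      one_le_pow₀ (by rw [one_le_div hpl]; exact hh)
    simp only [Nat.add_sub_cancel]
    exact le_mul_of_one_le_right hN0 this
  have h3 : ∑ y ∈ Icc 1 N, ((Xab q a b h y).choose K : ℝ) ≤
      C₁ * C₂ * (N * (h / (q.totient * Real.log N)) ^ K) := by
    -- split into residue classes
    have hfib : ∑ y ∈ Icc 1 N, ((Xab q a b h y).choose K : ℝ) =
        ∑ y0 ∈ range q, ∑ y ∈ (Icc 1 N).filter (fun y => y % q = y0),
          ((Xab q a b h y).choose K : ℝ) :=
      (Finset.sum_fiberwise_of_maps_to (fun y _ => mem_range.2 (Nat.mod_lt y hq)) _).symm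
    rw [hfib]
    have h4 : ∀ y0 ∈ range q, ∑ y ∈ (Icc 1 N).filter (fun y => y % q = y0),
        ((Xab q a b h y).choose K : ℝ) ≤
        C₁ * (N / q) * ((q : ℝ) / q.totient / Real.log N) ^ K * (C₂ * ((h : ℝ) / q) ^ K) := by
      intro y0 hy0
      have hy0q := mem_range.1 hy0
      set A := (Icc 1 h).filter (fun j => y0 + j ≡ a [MOD q] ∨ y0 + j ≡ b [MOD q]) with hA
      have e1 : ∀ y ∈ (Icc 1 N).filter (fun y => y % q = y0), ((Xab q a b h y).choose K : ℝ) =
          ∑ J ∈ A.powersetCard K, if (∀ j ∈ J, (y + j).Prime) then (1 : ℝ) else 0 := by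
        intro y hy
        have hy' : y ≡ y0 [MOD q] := by
          unfold Nat.ModEq
          rw [(mem_filter.1 hy).2, Nat.mod_eq_of_lt hy0q]
        rw [xab_choose K q a b h y y0 hy', ← Finset.sum_filter, Finset.sum_const, nsmul_eq_mul,
          mul_one]
      rw [Finset.sum_congr rfl e1, Finset.sum_comm]
      have e2 : ∀ J ∈ A.powersetCard K,
          ∑ y ∈ (Icc 1 N).filter (fun y => y % q = y0),
            (if (∀ j ∈ J, (y + j).Prime) then (1 : ℝ) else 0) ≤
          C₁ * (N / q) * ((q : ℝ) / q.totient / Real.log N) ^ K * (gq q (DJ J)) ^ K := by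
        intro J hJm
        rw [← Finset.sum_filter, Finset.sum_const, nsmul_eq_mul, mul_one, Finset.filter_filter]
        have h5 := hT N y0 hN1 J (mem_powersetCard.1 hJm).2
        have h6 : (Icc 1 N).filter (fun y => y % q = y0 ∧ ∀ j ∈ J, (y + j).Prime) =
            (Icc 1 N).filter (fun y => y ≡ y0 [MOD q] ∧ ∀ j ∈ J, (y + j).Prime) := by
          refine Finset.filter_congr fun y _ => ?_
          unfold Nat.ModEq
          rw [Nat.mod_eq_of_lt hy0q]
        rw [h6]
        refine h5.trans (le_of_eq ?_)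
        rw [mul_assoc (C₁ * (↑N / ↑q)), ← mul_pow]
        congr 2
        ring
      refine (Finset.sum_le_sum e2).trans ?_
      rw [← Finset.mul_sum]
      exact mul_le_mul_of_nonneg_left (hJ a b h y0 hh1) (by positivity)
    refine (Finset.sum_le_sum h4).trans (le_of_eq ?_)
    rw [Finset.sum_const, card_range, nsmul_eq_mul]
    have e : (h : ℝ) / (q.totient * Real.log N) = ((q : ℝ) / q.totient / Real.log N) * (h / q) := by
      field_simp
    rw [e, mul_pow]
    field_simp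
  calc B * (∑ _y ∈ Icc 1 N, (1 : ℝ) + ∑ y ∈ Icc 1 N, ((Xab q a b h y).choose K : ℝ)) ≤
        B * (N * (h / (q.totient * Real.log N)) ^ K +
          C₁ * C₂ * (N * (h / (q.totient * Real.log N)) ^ K)) :=
        mul_le_mul_of_nonneg_left (add_le_add h2 h3) hB0.le
    _ = B * (1 + C₁ * C₂) * N * (h / (q.totient * Real.log N)) ^ K := by ring

end TIE
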